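import Pool.Agent.Mg.F255345.Gb59a5c

set_option linter.all false

section

/-! Expansion near the invariant set gives unbranched pull-backs. -/

open Set Filter Topology

namespace Pool.Agent.MP_255345_an

namespace Uni

theorem stereo_cont : Continuous stereo := by
  rw [OnePoint.continuous_iff]
  have hp : ∀ w : ℂ, (0 : ℝ) < ‖w‖ ^ 2 + 1 := fun w => by positivity
  constructor
  · rw [coclosedCompact_eq_cocompact]
    have hn : Tendsto (fun w : ℂ => ‖w‖) (cocompact ℂ) atTop := tendsto_norm_cocompact_atTop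
    have h1 : Tendsto (fun w : ℂ => 2 / (‖w‖ ^ 2 + 1)) (cocompact ℂ) (𝓝 0) :=
      tendsto_const_nhds.div_atTop
        (tendsto_atTop_add_const_right _ _ ((tendsto_pow_atTop two_ne_zero).comp hn))
    have h2 : Tendsto (fun w : ℂ => ((2 / (‖w‖ ^ 2 + 1) : ℝ) : ℂ) * w) (cocompact ℂ) (𝓝 0) := by
      have h3 : Tendsto (fun w : ℂ => 2 / ‖w‖) (cocompact ℂ) (𝓝 0) :=
        tendsto_const_nhds.div_atTop hn
      refine squeeze_zero_norm' ?_ h3
      filter_upwards [hn.eventually_gt_atTop 0] with w hw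
      rw [norm_mul, Complex.norm_real, Real.norm_of_nonneg (by positivity), div_mul_eq_mul_div,
        div_le_div_iff₀ (hp w) hw]
      nlinarith
    have h4 : Tendsto (fun w : ℂ => (‖w‖ ^ 2 - 1) / (‖w‖ ^ 2 + 1)) (cocompact ℂ) (𝓝 1) := by
      have h5 := (tendsto_const_nhds (x := (1 : ℝ))).sub h1
      rw [sub_zero] at h5
      refine h5.congr fun w => ?_
      have := (hp w).ne'
      field_simp
      ring
    exact ((WithLp.prod_continuous_toLp 2 ℂ ℝ).tendsto (0, 1)).comp (h2.prodMk_nhds h4)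
  · refine (WithLp.prod_continuous_toLp 2 ℂ ℝ).comp (Continuous.prodMk ?_ ?_)
    · refine (Complex.continuous_ofReal.comp ?_).mul continuous_id
      exact continuous_const.div (by fun_prop) fun w => (hp w).ne'
    · exact Continuous.div (by fun_prop) (by fun_prop) fun w => (hp w).ne'

theorem stereo_inj : Function.Injective stereo := by
  have hp : ∀ w : ℂ, (0 : ℝ) < ‖w‖ ^ 2 + 1 := fun w => by positivity
  have hi : ∀ w : ℂ, (‖w‖ ^ 2 - 1) / (‖w‖ ^ 2 + 1) ≠ 1 := fun w h => by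
    rw [div_eq_one_iff_eq (hp w).ne'] at h
    linarith
  intro u v h
  have h' := WithLp.toLp_injective 2 (show WithLp.toLp 2 (stereo u).ofLp =
    WithLp.toLp 2 (stereo v).ofLp from h)
  induction u using OnePoint.rec with
  | infty =>
    induction v using OnePoint.rec with
    | infty => rfl
    | coe w => exact (hi w (congrArg Prod.snd h').symm).elim
  | coe z =>
    induction v using OnePoint.rec with
    | infty => exact (hi z (congrArg Prod.snd h')).elim
    | coe w =>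
      have h1 : ((2 / (‖z‖ ^ 2 + 1) : ℝ) : ℂ) * z = ((2 / (‖w‖ ^ 2 + 1) : ℝ) : ℂ) * w :=
        congrArg Prod.fst h'
      have h2 : (‖z‖ ^ 2 - 1) / (‖z‖ ^ 2 + 1) = (‖w‖ ^ 2 - 1) / (‖w‖ ^ 2 + 1) :=
        congrArg Prod.snd h'
      rw [div_eq_div_iff (hp z).ne' (hp w).ne'] at h2
      have h3 : ‖z‖ ^ 2 = ‖w‖ ^ 2 := by linarith
      rw [h3] at h1
      have h4 : ((2 / (‖w‖ ^ 2 + 1) : ℝ) : ℂ) ≠ 0 := by
        have := hp w
        exact_mod_cast (by positivity : (2 / (‖w‖ ^ 2 + 1) : ℝ) ≠ 0)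
      rw [mul_left_cancel₀ h4 h1]

theorem chord_self (u : OnePoint ℂ) : chord u u = 0 := dist_self _

theorem chord_tri (u v w : OnePoint ℂ) : chord u w ≤ chord u v + chord v w := dist_triangle _ _ _

theorem chord_cont (u : OnePoint ℂ) : Continuous (chord u) := continuous_const.dist stereo_cont

theorem chord_cont₂ : Continuous fun p : OnePoint ℂ × OnePoint ℂ => chord p.1 p.2 :=
  (stereo_cont.comp continuous_fst).dist (stereo_cont.comp continuous_snd)

theorem chord_eq {u v : OnePoint ℂ} (h : chord u v ≤ 0) : u = v :=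
  stereo_inj (dist_le_zero.1 h)

/-- Pull-backs of small balls along orbits near `K` are small. -/
theorem small {f : OnePoint ℂ → OnePoint ℂ} {K : Set (OnePoint ℂ)} (hf : Continuous f) {N : ℕ}
    {l δ : ℝ} (hl : 1 < l) (hδ : 0 < δ)
    (hE : ∀ x ∈ K, ∀ u v, chord x u < δ → chord x v < δ →
      l * chord u v ≤ chord (f^[N] u) (f^[N] v)) (j : ℕ) :
    ∀ w, (∀ i < j, ∃ x ∈ K, chord x (f^[i * N] w) < δ / 2) →
      ∀ u ∈ pb f (j * N) 0 {u | chord (f^[j * N] w) u < δ / 2} w, chord w u < δ / 2 := by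
  induction j with
  | zero =>
    intro w _ u hu
    have := pb_sub hu
    simpa using this
  | succ j ih =>
    intro w hw
    rw [Nat.succ_mul]
    set S := pb f (j * N + N) 0 {u | chord (f^[j * N + N] w) u < δ / 2} w with hS
    have hwS : w ∈ S :=
      mem_pb (i := 0) (by rw [mem_ofPred_eq, chord_self]; linarith) (Nat.zero_le _)
    have h1 : ∀ u ∈ S, chord (f^[N] w) (f^[N] u) < δ / 2 := by
      intro u hu
      have h2 := pb_map hf (Nat.zero_le N) (Nat.le_add_left N (j * N)) hu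
      have h3 := pb_shift (f := f) (n := j * N) (i := 0) (x := w)
        (U := {u | chord (f^[j * N + N] w) u < δ / 2}) N
      rw [zero_add] at h3
      rw [h3, Nat.sub_zero, Function.iterate_add_apply] at h2
      refine ih (f^[N] w) (fun i hi => ?_) _ h2
      have := hw (i + 1) (by omega)
      rwa [Nat.succ_mul, Function.iterate_add_apply] at this
    obtain ⟨x, hx, hxw⟩ := hw 0 (by omega)
    rw [zero_mul, Function.iterate_zero_apply] at hxw
    have hl0 : 0 < l := by linarith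
    have h4 : δ / 2 / l < δ / 2 := div_lt_self (by linarith) hl
    intro u hu
    by_contra hc
    have h5 : δ / 2 / l ∈ Icc (chord w w) (chord w u) :=
      ⟨by rw [chord_self]; positivity, by linarith [not_lt.1 hc]⟩
    obtain ⟨v, hv, e1⟩ := pb_conn.intermediate_value hwS hu (chord_cont w).continuousOn h5
    have h6 := hE x hx w v (by linarith) (by linarith [chord_tri x w v])
    have h7 := h1 v hv
    rw [e1, mul_div_cancel₀ _ hl0.ne'] at h6
    linarith

end Uni

open Uni in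
theorem stUni (hT : StTop) : StUni := by
  intro f K hf ho ⟨N, l, δ, hN, hl, hδ, hE⟩
  have := hT.1
  have hoi : ∀ n, IsOpenMap f^[n] := fun n => by
    induction n with
    | zero => exact IsOpenMap.id
    | succ n ih => exact ih.comp ho
  refine ⟨N, ⋃ x ∈ K, {u | chord x u < δ / 2}, {p | chord p.1 p.2 < δ / 2}, hN,
    isOpen_biUnion fun x _ => isOpen_lt (chord_cont x) continuous_const, fun x hx => ?_,
    isOpen_lt chord_cont₂ continuous_const, fun p => ?_, fun j w hw i hi c hc => ?_⟩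
  · exact mem_biUnion hx (by rw [mem_ofPred_eq, chord_self]; linarith)
  · rw [mem_ofPred_eq, chord_self]
    linarith
  have hw' : ∀ i < j, ∃ x ∈ K, chord x (f^[i * N] w) < δ / 2 := fun i hi => by
    simpa only [mem_iUnion, mem_ofPred_eq, exists_prop] using hw i hi
  obtain ⟨q, hq⟩ : ∃ q, q = i / N := ⟨_, rfl⟩
  have hqi : q * N ≤ i := hq ▸ Nat.div_mul_le_self i N
  have hqj : q < j := hq ▸ (Nat.div_lt_iff_lt_mul hN).2 hi
  have hs : i - q * N < N := by
    have := Nat.lt_div_mul_add (a := i) hN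
    rw [← hq] at this
    omega
  obtain ⟨t, rfl⟩ := Nat.exists_eq_add_of_le' hqj.le
  change c ∈ pb f ((t + q) * N) i {u | chord (f^[(t + q) * N] w) u < δ / 2} w at hc
  obtain ⟨u, hu, rfl⟩ := pb_surj hf (hoi _) (isOpen_lt (chord_cont _) continuous_const) hqi hi.le hc
  have h3 := pb_shift (f := f) (n := t * N) (i := 0) (x := w)
    (U := {u | chord (f^[(t + q) * N] w) u < δ / 2}) (q * N)
  rw [zero_add, ← add_mul] at h3
  rw [h3, add_mul, Function.iterate_add_apply] at hu
  have h4 := small hf hl hδ hE t (f^[q * N] w) (fun s hs => by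
    have := hw' (s + q) (by omega)
    rwa [add_mul, Function.iterate_add_apply] at this) u hu
  obtain ⟨x, hx, hxw⟩ := hw' q hqj
  have hB : IsOpen (f^[i - q * N] '' {v | chord x v < δ}) :=
    hoi _ _ (isOpen_lt (chord_cont x) continuous_const)
  intro hcr
  refine hcr _ (hB.mem_nhds ⟨u, by
    rw [mem_ofPred_eq]; linarith [chord_tri x (f^[q * N] w) u], rfl⟩) ?_
  rintro _ ⟨v, hv, rfl⟩ _ ⟨v', hv', rfl⟩ e1
  have e2 : ∀ y, f^[N] y = f^[N - (i - q * N) - 1] (f (f^[i - q * N] y)) := fun y => by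
    rw [← Function.iterate_succ_apply, ← Function.iterate_add_apply]
    congr 2
    omega
  have h5 := hE x hx v v' hv hv'
  rw [e2 v, e2 v', e1, chord_self] at h5
  have h6 : chord v v' ≤ 0 := by
    by_contra h7
    nlinarith [not_le.1 h7]
  rw [chord_eq h6]

end Pool.Agent.MP_255345_an

end

section

/-! Doubling for rational functions away from the poles. -/

open Set Filter Topology Metric Polynomial

namespace Pool.Agent.MP_255345_an

namespace Dbl

theorem nrm (p : ℂ[X]) (u : ℂ) :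
    ‖p.eval u‖ = ‖p.leadingCoeff‖ * (p.roots.map fun w => ‖u - w‖).prod := by
  rw [(IsAlgClosed.splits p).eval_eq_prod_roots, norm_mul]
  exact congrArg _ (Multiset.prod_hom' p.roots (normHom (α := ℂ)) fun w => u - w).symm

theorem pos {s : Multiset ℂ} {g : ℂ → ℝ} (h : ∀ w, 0 ≤ g w) : 0 ≤ (s.map g).prod :=
  Multiset.prod_nonneg fun a ha => by
    obtain ⟨w, -, rfl⟩ := Multiset.mem_map.1 ha
    exact h w

theorem cmp {p : ℂ[X]} {d : ℕ} (hp : p.natDegree ≤ d) {f g : ℂ → ℝ} {K : ℝ} (hK : 1 ≤ K)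
    (f0 : ∀ w, 0 ≤ f w) (g0 : ∀ w, 0 ≤ g w) (h : ∀ w ∈ p.roots, f w ≤ K * g w) :
    ‖p.leadingCoeff‖ * (p.roots.map f).prod ≤
      K ^ d * (‖p.leadingCoeff‖ * (p.roots.map g).prod) := by
  have h1 := Multiset.prod_map_le_prod_map₀ f (fun w => K * g w) (fun w _ => f0 w) h
  rw [Multiset.prod_map_mul, Multiset.map_const', Multiset.prod_replicate] at h1
  have h2 := pow_le_pow_right₀ hK (p.card_roots'.trans hp)
  have h3 := mul_le_mul_of_nonneg_right h2 (pos (s := p.roots) g0)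
  rw [mul_left_comm]
  exact mul_le_mul_of_nonneg_left (h1.trans h3) (norm_nonneg _)

theorem den {Q : ℂ[X]} {d : ℕ} (hQ : Q.natDegree ≤ d) {x u : ℂ} {ρ : ℝ}
    (h : ∀ u ∈ ball x (2 * ρ), Q.eval u ≠ 0) (hu : ‖u - x‖ ≤ ρ) :
    ‖Q.eval u‖ ≤ 2 ^ d * ‖Q.eval x‖ ∧ ‖Q.eval x‖ ≤ 2 ^ d * ‖Q.eval u‖ := by
  have k : ∀ w ∈ Q.roots, 2 * ρ ≤ ‖x - w‖ := fun w hw => by
    by_contra hc
    exact h w (by rw [mem_ball, dist_comm, dist_eq_norm]; linarith) (isRoot_of_mem_roots hw)
  rw [nrm, nrm]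
  refine ⟨cmp hQ one_le_two (fun _ => norm_nonneg _) (fun _ => norm_nonneg _) fun w hw => ?_,
    cmp hQ one_le_two (fun _ => norm_nonneg _) (fun _ => norm_nonneg _) fun w hw => ?_⟩
  · linarith [k w hw, norm_sub_le_norm_sub_add_norm_sub u x w, norm_nonneg (x - w)]
  · linarith [k w hw, norm_sub_le_norm_sub_add_norm_sub x u w, norm_sub_rev x u]

theorem gap {s : Multiset ℂ} {d : ℕ} (hs : s.card ≤ d) (x : ℂ) {η : ℝ} (h : 0 < η) :
    ∃ t : ℝ, 0 < t ∧ t < 4 * (d + 1) * η ∧ ∀ w ∈ s, η ≤ |‖x - w‖ - t| := by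
  by_contra hc
  have h1 : ∀ j : ℕ, ∃ w, j < d + 1 → w ∈ s ∧ |‖x - w‖ - (2 * j + 1) * η| < η := by
    intro j
    by_cases hj : j < d + 1
    · by_contra h2
      have h3 : (j : ℝ) < d + 1 := by exact_mod_cast hj
      refine hc ⟨(2 * j + 1) * η, by positivity, mul_lt_mul_of_pos_right ?_ h, fun w hw => ?_⟩
      · linarith [Nat.cast_nonneg (α := ℝ) d]
      · exact not_lt.1 fun h4 => h2 ⟨w, fun _ => ⟨hw, h4⟩⟩
    · exact ⟨0, fun h => absurd h hj⟩
  choose f hf using h1
  obtain ⟨i, hi, j, hj, hij, e⟩ := Finset.exists_ne_map_eq_of_card_lt_of_maps_to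
    (s := Finset.range (d + 1)) (t := s.toFinset) (f := f)
    (by rw [Finset.card_range]; exact Nat.lt_succ_of_le (s.toFinset_card_le.trans hs))
    fun j hj => by simpa using (hf j (by simpa using hj)).1
  have a := abs_lt.1 (hf i (Finset.mem_range.1 hi)).2
  have b := abs_lt.1 (hf j (Finset.mem_range.1 hj)).2
  rw [e] at a
  rcases Nat.lt_or_gt_of_ne hij with g | g
  · have g' : (i : ℝ) + 1 ≤ j := by exact_mod_cast g
    nlinarith [a.2, b.1]
  · have g' : (j : ℝ) + 1 ≤ i := by exact_mod_cast g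
    nlinarith [a.1, b.2]

end Dbl

theorem stDbl : StDbl := by
  intro d
  obtain ⟨D, hD⟩ : ∃ D : ℝ, D = 12 * (d + 1) := ⟨_, rfl⟩
  have d0 : (0 : ℝ) ≤ d := Nat.cast_nonneg d
  have D1 : 12 ≤ D := by linarith
  have D2 : 1 ≤ D ^ d := one_le_pow₀ (by linarith)
  have D3 : (1 : ℝ) ≤ 2 ^ d := one_le_pow₀ one_le_two
  refine ⟨1 / (4 * (2 ^ d * 2 ^ d * D ^ d)), by positivity, ?_, ?_⟩
  · rw [div_le_one (by positivity)]
    linarith [one_le_mul_of_one_le_of_one_le (one_le_mul_of_one_le_of_one_le D3 D3) D2]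
  intro P Q x ρ R hP hQ hρ hR hne ⟨u₀, hu₀, hg₀⟩
  obtain ⟨A, hA⟩ : ∃ A : ℂ[X], A = C (Q.eval x) * P - C (P.eval x) * Q := ⟨_, rfl⟩
  have dA : A.natDegree ≤ d := hA ▸ natDegree_sub_le_of_le ((natDegree_C_mul_le _ _).trans hP)
    ((natDegree_C_mul_le _ _).trans hQ) |>.trans (max_self d).le
  have qx := hne x (mem_ball_self (by linarith))
  have q0 := norm_pos_iff.2 qx
  have sub : ∀ u, ‖u - x‖ ≤ ρ → u ∈ ball x (2 * ρ) := fun u hu => by
    rw [mem_ball, dist_eq_norm]
    linarith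
  have hAu : ∀ u, ‖u - x‖ ≤ ρ → ‖A.eval u‖ =
      ‖P.eval u / Q.eval u - P.eval x / Q.eval x‖ * (‖Q.eval u‖ * ‖Q.eval x‖) := fun u hu => by
    have := hne u (sub u hu)
    rw [← norm_mul, ← norm_mul, hA]
    congr 1
    simp only [eval_sub, eval_mul, eval_C]
    field_simp
  obtain ⟨Ψ, hΨ⟩ : ∃ Ψ : ℝ → ℝ,
    ∀ t, Ψ t = ‖A.leadingCoeff‖ * (A.roots.map fun w => t + ‖x - w‖).prod := ⟨_, fun _ => rfl⟩
  have up : ∀ u t, ‖u - x‖ ≤ t → ‖A.eval u‖ ≤ Ψ t := fun u t hu => by
    have := Dbl.cmp dA le_rfl (f := fun w => ‖u - w‖) (g := fun w => t + ‖x - w‖)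
      (fun _ => norm_nonneg _) (fun _ => add_nonneg ((norm_nonneg _).trans hu) (norm_nonneg _))
      fun w _ => by linarith [norm_sub_le_norm_sub_add_norm_sub u x w]
    rwa [one_pow, one_mul, ← hΨ, ← Dbl.nrm] at this
  have low : ∀ u t, ‖u - x‖ ≤ t → t ≤ ρ →
      ‖P.eval u / Q.eval u - P.eval x / Q.eval x‖ * ‖Q.eval x‖ ^ 2 ≤ 2 ^ d * Ψ t := by
    intro u t h1 h2
    have a := (Dbl.den hQ hne (h1.trans h2)).2
    have b := mul_le_mul_of_nonneg_left (up u t h1) (zero_le_one.trans D3)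
    rw [hAu u (h1.trans h2)] at b
    have c := mul_le_mul_of_nonneg_left a (mul_nonneg
      (norm_nonneg (P.eval u / Q.eval u - P.eval x / Q.eval x)) q0.le)
    linarith
  have hu₁ : ‖u₀ - x‖ ≤ ρ := (mem_ball_iff_norm.1 hu₀).le
  have hg₁ := not_lt.1 (mt mem_ball_iff_norm.2 hg₀)
  have Ψ0 : Ψ 0 = 0 := by
    simp only [hΨ, zero_add]
    rw [← Dbl.nrm, hAu x (by simpa using hρ.le), sub_self, norm_zero, zero_mul]
  have Ψc : Continuous fun t => 2 ^ d * Ψ t := by
    simp only [hΨ]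
    exact continuous_const.mul (continuous_const.mul
      (continuous_multiset_prod _ fun w _ => continuous_id.add continuous_const))
  have q2 : 0 < R * ‖Q.eval x‖ ^ 2 := by positivity
  obtain ⟨r, ⟨r0, r1⟩, hr⟩ := intermediate_value_Icc hρ.le Ψc.continuousOn
    (show R * ‖Q.eval x‖ ^ 2 / 2 ∈ Icc _ _ from ⟨by rw [Ψ0]; linarith, by
      linarith [low u₀ ρ hu₁ le_rfl, mul_le_mul_of_nonneg_right hg₁ (sq_nonneg ‖Q.eval x‖)]⟩)
  have hr' : 2 ^ d * Ψ r = R * ‖Q.eval x‖ ^ 2 / 2 := hr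
  have r2 : 0 < r := r0.lt_of_ne fun h => by
    rw [← h, Ψ0] at hr'
    linarith
  refine ⟨r, r2, r1, fun u hu => ⟨_, mem_ball_iff_norm.2 ?_, rfl⟩, fun τ t0 t1 v hv => ?_⟩
  · have a := low u r (mem_ball_iff_norm.1 hu).le r1
    exact lt_of_mul_lt_mul_right (a.trans_lt (by linarith)) (sq_nonneg ‖Q.eval x‖)
  obtain ⟨η, hη⟩ : ∃ η : ℝ, η = 3 * (τ * r) / D := ⟨_, rfl⟩
  have e0 : 0 < η := by rw [hη]; positivity
  have e1 : D * η = 3 * (τ * r) := by rw [hη]; field_simp
  obtain ⟨t, s0, s1, hs⟩ := Dbl.gap (A.card_roots'.trans dA) x e0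
  have s2 : t < τ * r := by
    rw [hD] at e1
    linarith
  have s3 : τ * r ≤ r := mul_le_of_le_one_left r0 t1
  have K1 : 12 ≤ D / τ := by
    rw [le_div_iff₀ t0]
    linarith
  have K2 : D / τ * η = 3 * r := by
    rw [div_mul_eq_mul_div, e1]
    field_simp
  have hdiff : DifferentiableOn ℂ (fun u => P.eval u / Q.eval u) (ball x (2 * ρ)) :=
    P.differentiable.differentiableOn.div Q.differentiable.differentiableOn hne
  have key := (hdiff.diffContOnCl_ball (c := x) (R := t)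
    (closedBall_subset_ball (by linarith))).ball_subset_image_closedBall
    (ε := τ ^ d * R / (2 * (2 ^ d * 2 ^ d * D ^ d))) s0 (fun u hu => ?_) ?_
  · obtain ⟨u, hu, e⟩ := key (show v ∈ _ by convert hv using 2; field_simp; norm_num)
    exact ⟨u, closedBall_subset_ball s2 hu, e⟩
  · have u1 : ‖u - x‖ = t := mem_sphere_iff_norm.1 hu
    have u2 : ‖u - x‖ ≤ ρ := by linarith
    have a := Dbl.cmp dA (K := D / τ) (by linarith) (f := fun w => r + ‖x - w‖)
      (g := fun w => ‖u - w‖) (fun _ => add_nonneg r0 (norm_nonneg _)) (fun _ => norm_nonneg _)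
      fun w hw => by
        have b1 : |‖x - w‖ - t| ≤ ‖u - w‖ := by
          rw [← u1, norm_sub_rev u x, norm_sub_rev u w]
          refine (abs_norm_sub_norm_le _ _).trans (le_of_eq ?_)
          rw [norm_sub_rev]
          congr 1
          ring
        rcases le_total ‖x - w‖ (2 * r) with g | g
        · linarith [mul_le_mul_of_nonneg_left ((hs w hw).trans b1) (show 0 ≤ D / τ by linarith)]
        · linarith [mul_le_mul_of_nonneg_right K1 (norm_nonneg (u - w)), (abs_le.1 b1).2]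
    rw [← hΨ, ← Dbl.nrm, hAu u u2] at a
    have b := (Dbl.den hQ hne u2).1
    generalize ‖P.eval u / Q.eval u - P.eval x / Q.eval x‖ = G at a ⊢
    have G0 : 0 ≤ (D / τ) ^ d * G * ‖Q.eval x‖ := by
      by_contra hc
      have c1 := mul_neg_of_neg_of_pos (not_le.1 hc) (norm_pos_iff.2 (hne u (sub u u2)))
      have c2 := mul_le_mul_of_nonneg_left a (zero_le_one.trans D3)
      have c3 := mul_neg_of_pos_of_neg (zero_lt_one.trans_le D3) c1
      linarith
    have c1 := mul_le_mul_of_nonneg_left b G0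
    have c2 := mul_le_mul_of_nonneg_left (a.trans ((le_of_eq (by ring)).trans c1))
      (zero_le_one.trans D3)
    have c3 : R ≤ 2 * (2 ^ d * 2 ^ d * (D / τ) ^ d) * G :=
      le_of_mul_le_mul_right (by linarith) (pow_pos q0 2)
    rw [div_le_iff₀ (by positivity)]
    refine (mul_le_mul_of_nonneg_left c3 (pow_pos t0 d).le).trans (le_of_eq ?_)
    rw [div_pow]
    field_simp
  · by_contra hc
    have a : A = 0 := by
      refine eq_zero_of_infinite_isRoot A (infinite_of_mem_nhds x ?_)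
      filter_upwards [not_frequently.1 hc, closedBall_mem_nhds x hρ] with z h1 h2
      rw [IsRoot.def, ← norm_eq_zero, hAu z (mem_closedBall_iff_norm.1 h2), not_not.1 h1, sub_self,
        norm_zero, zero_mul]
    rw [hΨ, a, leadingCoeff_zero, norm_zero, zero_mul, mul_zero] at hr'
    linarith

end Pool.Agent.MP_255345_an

end

section

/-! One step of the pull-back. -/

open Set Filter Topology Metric Polynomial

namespace Pool.Agent.MP_255345_an.One

variable {X : Type} [TopologicalSpace X] {f : X → X} {e : ℂ → X} {k : X} {P Q : ℂ[X]} {K : Set X}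

/-- a small circle round a point whose image stays away from the image of the point -/
theorem circ [T2Space X] (h : Ch f e k P Q) {c v : ℂ} (hv : f (e c) = e v) :
    ∃ ρ η : ℝ, 0 < ρ ∧ 0 < η ∧ (∀ u ∈ ball c (5 * ρ), f (e u) ≠ k) ∧
      ∀ u ∈ sphere c ρ, f (e u) ∉ e '' ball v η := by
  have hc : Continuous fun u => f (e u) := h.cont.comp h.emb.continuous
  have h1 : ∀ᶠ u in 𝓝 c, f (e u) ≠ k :=
    hc.continuousAt.eventually_ne (by rw [hv]; exact h.ne v)
  have hF : ((e ⁻¹' (f ⁻¹' {e v})) \ {c}).Finite :=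
    ((h.fin _).preimage h.emb.injective.injOn).sdiff
  have h2 : ∀ᶠ u in 𝓝 c, u ∉ (e ⁻¹' (f ⁻¹' {e v})) \ {c} :=
    hF.isClosed.isOpen_compl.mem_nhds fun hc => hc.2 rfl
  obtain ⟨ε, e0, hε⟩ := Metric.eventually_nhds_iff_ball.1 (h1.and h2)
  have h3 : IsClosed ((fun u => f (e u)) '' sphere c (ε / 5)) :=
    ((isCompact_sphere c (ε / 5)).image hc).isClosed
  have h4 : v ∈ e ⁻¹' ((fun u => f (e u)) '' sphere c (ε / 5))ᶜ := by
    rintro ⟨u, hu, e1⟩
    rw [mem_sphere] at hu
    refine (hε u (by rw [mem_ball, hu]; linarith)).2 ⟨e1, fun e2 => ?_⟩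
    rw [mem_singleton_iff.1 e2, dist_self] at hu
    linarith
  obtain ⟨η, η0, hη⟩ := Metric.isOpen_iff.1 (h3.isOpen_compl.preimage h.emb.continuous) v h4
  refine ⟨ε / 5, η, by positivity, η0, fun u hu => (hε u ?_).1, ?_⟩
  · rwa [show 5 * (ε / 5) = ε by ring] at hu
  · rintro u hu ⟨w, hw, e1⟩
    exact hη hw ⟨u, hu, e1.symm⟩

/-- small discs whose pull-back contains a given point -/
theorem near [T2Space X] (h : Ch f e k P Q) (hk : k ∈ K) {b : ℂ} (hb : e b ∈ K)
    (hK : MapsTo f K K) {cD : ℝ} {d : ℕ}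
    (hD : ∀ (x : ℂ) (ρ R : ℝ), 0 < ρ → 0 < R → (∀ u ∈ ball x (2 * ρ), Q.eval u ≠ 0) →
      (∃ u ∈ ball x ρ, P.eval u / Q.eval u ∉ ball (P.eval x / Q.eval x) R) →
      ∃ r : ℝ, 0 < r ∧ r ≤ ρ ∧
        Rel id (fun u => P.eval u / Q.eval u) x (P.eval x / Q.eval x) r R cD d) (c₀ : X) :
    ∃ θ₀ : ℝ, 0 < θ₀ ∧ ∀ θ : ℝ, 0 < θ → θ < θ₀ → ∀ (x y : ℂ) (R : ℝ), 0 < R → f (e x) = e y →
      Disjoint (e '' ball y R) K → c₀ ∈ pb f 1 0 (e '' ball y (θ * R)) (e x) →
      ∃ r : ℝ, 0 < r ∧ Rel e f x y r (θ * R) cD d := by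
  by_cases h0 : f c₀ ∈ K
  · refine ⟨1, one_pos, fun θ t0 t1 x y R R0 _ hd hc => ?_⟩
    have h1 : f c₀ ∈ e '' ball y (θ * R) := pb_sub hc
    exact (disjoint_left.1 hd (image_mono (ball_subset_ball (by nlinarith)) h1) h0).elim
  obtain ⟨c, rfl⟩ := h.ex (x := c₀) fun e1 => h0 (hK (e1 ▸ hk))
  obtain ⟨v, hv⟩ := h.ex (x := f (e c)) fun e1 => h0 (e1 ▸ hk)
  obtain ⟨ρ, η, ρ0, η0, h1, h2⟩ := circ h hv.symm
  have hs : 0 < dist b v + 1 := by positivity
  refine ⟨min (1 / 2) (η / (4 * (dist b v + 1))), by positivity,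
    fun θ t0 t1 x y R R0 hxy hd hc => ?_⟩
  have t2 : θ < 1 / 2 := t1.trans_le (min_le_left _ _)
  have t3 : θ * (4 * (dist b v + 1)) < η :=
    (lt_div_iff₀ (by positivity)).1 (t1.trans_le (min_le_right _ _))
  have hS : ∀ w ∈ pb f 1 0 (e '' ball y (θ * R)) (e x), f w ∈ e '' ball y (θ * R) :=
    fun w hw => pb_sub hw
  have hv1 : dist v y < θ * R := by
    obtain ⟨w, hw, e1⟩ := hS _ hc
    rw [← hv] at e1
    rwa [← h.emb.injective e1]
  have hb1 : R ≤ dist b y := not_lt.1 fun hl => disjoint_left.1 hd ⟨b, hl, rfl⟩ hb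
  have hR : R ≤ 2 * dist b v := by
    have := dist_triangle b v y
    nlinarith
  have hsub : ball y (θ * R) ⊆ ball v η := by
    intro w hw
    rw [mem_ball] at hw ⊢
    have := dist_triangle_right w v y
    nlinarith
  have hx : x ∈ ball c ρ := by
    have a1 : pb f 1 0 (e '' ball y (θ * R)) (e x) ⊆ e '' ball c ρ := by
      refine pb_conn.subset_left_of_subset_union (v := e '' (closedBall c ρ)ᶜ)
        (h.emb.isOpenMap _ isOpen_ball) (h.emb.isOpenMap _ isClosed_closedBall.isOpen_compl)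
        ((disjoint_image_iff h.emb.injective).2
          (disjoint_compl_right_iff_subset.2 ball_subset_closedBall))
        (fun w hw => ?_) ⟨_, hc, c, mem_ball_self ρ0, rfl⟩
      have a2 := hS w hw
      obtain ⟨u, rfl⟩ := h.ex (x := w) fun e1 => disjoint_left.1 hd
        (image_mono (ball_subset_ball (by nlinarith)) a2) (hK (e1 ▸ hk))
      rcases lt_trichotomy (dist u c) ρ with a3 | a3 | a3
      · exact Or.inl ⟨u, a3, rfl⟩
      · exact (h2 u a3 (image_mono hsub a2)).elim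
      · exact Or.inr ⟨u, fun a4 => not_le.2 a3 a4, rfl⟩
    have a5 : e x ∈ pb f 1 0 (e '' ball y (θ * R)) (e x) :=
      mem_pb (n := 1) (i := 0) (x := e x) ⟨y, mem_ball_self (by positivity), hxy.symm⟩ zero_le_one
    obtain ⟨u, hu, e1⟩ := a1 a5
    rwa [← h.emb.injective e1]
  have h5 : ∀ u ∈ ball x (2 * (2 * ρ)), Q.eval u ≠ 0 ∧ f (e u) = e (P.eval u / Q.eval u) := by
    intro u hu
    refine h.rat u (h1 u ?_)
    rw [mem_ball] at hu hx ⊢
    have := dist_triangle u x c
    linarith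
  have hy : P.eval x / Q.eval x = y :=
    h.emb.injective ((h5 x (mem_ball_self (by positivity))).2.symm.trans hxy)
  have h6 : c + ρ ∈ sphere c ρ := by
    simp [abs_of_pos ρ0]
  have h7 : c + ρ ∈ ball x (2 * ρ) := by
    rw [mem_sphere] at h6
    rw [mem_ball] at hx ⊢
    have := dist_triangle_right (c + ρ) x c
    linarith
  obtain ⟨r, r0, r1, hr⟩ := hD x (2 * ρ) (θ * R) (by positivity) (by positivity)
    (fun u hu => (h5 u hu).1) ⟨c + ρ, h7, fun a => h2 _ h6 (by
      rw [(h5 _ (ball_subset_ball (by linarith) h7)).2]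
      exact ⟨_, hsub (hy ▸ a), rfl⟩)⟩
  rw [hy] at hr
  refine ⟨r, r0, fun u hu => ?_, fun τ a0 a1 w hw => ?_⟩
  · obtain ⟨w, hw, e1⟩ := hr.1 u hu
    rw [(h5 u (ball_subset_ball (by linarith) hu)).2]
    exact ⟨w, hw, congrArg e e1⟩
  · obtain ⟨u, hu, e1⟩ := hr.2 τ a0 a1 w hw
    refine ⟨u, hu, ?_⟩
    rw [(h5 u (ball_subset_ball (by nlinarith) hu)).2]
    exact congrArg e e1

end Pool.Agent.MP_255345_an.One

namespace Pool.Agent.MP_255345_an

theorem stOne (hU : StUnb) (hD : StDbl) : StOne := by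
  intro X _ f e k P Q K b h hk hb hK
  obtain ⟨cU, u0, u1, hU⟩ := hU
  obtain ⟨cD, d0, d1, hD⟩ := hD (max P.natDegree Q.natDegree)
  choose θ₀ t0 ht using One.near h hk hb hK fun x ρ R =>
    hD P Q x ρ R (le_max_left _ _) (le_max_right _ _)
  have h1 : ∀ᶠ θ in 𝓝[>] (0 : ℝ), ∀ c ∈ {c | IsCrit f c}, θ < θ₀ c :=
    (eventually_all_finite h.crit).2 fun c _ =>
      nhdsWithin_le_nhds (eventually_lt_nhds (t0 c))
  have h2 : ∀ᶠ θ in 𝓝[>] (0 : ℝ), θ < 1 := nhdsWithin_le_nhds (eventually_lt_nhds one_pos)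
  obtain ⟨θ, a1, a2, a0⟩ := (h1.and (h2.and self_mem_nhdsWithin)).exists
  have a0 : 0 < θ := a0
  refine ⟨cU * cD * θ, max P.natDegree Q.natDegree + 1, by positivity,
    mul_le_one₀ (mul_le_one₀ u1 d0.le d1) a0.le a2.le, fun x y R R0 hxy hd => ?_⟩
  by_cases hc : ∃ c ∈ pb f 1 0 (e '' ball y (θ * R)) (e x), IsCrit f c
  · obtain ⟨c, c1, c2⟩ := hc
    obtain ⟨r, r0, hr⟩ := ht c θ a0 (a1 c c2) x y R R0 hxy hd c1
    refine ⟨r, r0, (hr.shrink R0 a2.le).mono R0 (by positivity) ?_ (Nat.le_succ _)⟩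
    exact mul_le_mul_of_nonneg_right (mul_le_of_le_one_left d0.le u1) a0.le
  · obtain ⟨r, r0, hr⟩ := hU X f e k P Q K h hk hK 1 x y (θ * R) (by positivity) hxy
      (hd.mono_left (image_mono (ball_subset_ball (by nlinarith)))) fun i hi c c1 c2 => by
        obtain rfl : i = 0 := by omega
        exact hc ⟨c, c1, c2⟩
    refine ⟨r, r0, (Rel.shrink (F := f) hr R0 a2.le).mono R0 (by positivity) ?_ (by omega)⟩
    exact mul_le_mul_of_nonneg_right (mul_le_of_le_one_right u0.le d1) a0.le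

end Pool.Agent.MP_255345_an

end

section

open Set Filter Topology MeasureTheory Metric

namespace Pool.Agent.MP_255345_an

namespace Emb

theorem ek_zero (k : ℂ) : ek k 0 = OnePoint.infty := if_pos rfl

theorem ek_ne (k : ℂ) {u : ℂ} (h : u ≠ 0) : ek k u = ((k + u⁻¹ : ℂ) : OnePoint ℂ) := if_neg h

theorem cont_ek (k : ℂ) : Continuous (ek k) := by
  rw [continuous_iff_continuousAt]
  intro u
  by_cases h : u = 0
  · subst h
    rw [← continuousWithinAt_compl_self, ContinuousWithinAt, ek_zero]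
    have h1 : Tendsto (fun u : ℂ => k + u⁻¹) (𝓝[≠] 0) (coclosedCompact ℂ) := by
      refine (Homeomorph.addLeft k).map_coclosedCompact.le.trans' ?_
      rw [coclosedCompact_eq_cocompact, ← Metric.cobounded_eq_cocompact]
      exact map_mono (m := fun x => k + x) tendsto_inv₀_nhdsNE_zero
    refine (OnePoint.tendsto_coe_infty.comp h1).congr' ?_
    filter_upwards [self_mem_nhdsWithin] with u hu
    exact (ek_ne k hu).symm
  · have h1 : ContinuousAt (fun u : ℂ => ((k + u⁻¹ : ℂ) : OnePoint ℂ)) u :=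
      OnePoint.continuous_coe.continuousAt.comp (continuousAt_const.add (continuousAt_inv₀ h))
    refine h1.congr ?_
    filter_upwards [isOpen_ne.mem_nhds h] with v hv
    exact (ek_ne k hv).symm

/-- inversion of the sphere -/
noncomputable def io (z : OnePoint ℂ) : OnePoint ℂ := z.elim ((0 : ℂ) : OnePoint ℂ) (ek 0)

theorem io_io (z : OnePoint ℂ) : io (io z) = z := by
  induction z using OnePoint.rec with
  | infty => exact ek_zero 0
  | coe u =>
    change io (ek 0 u) = _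
    by_cases h : u = 0
    · rw [h, ek_zero]; rfl
    · rw [ek_ne 0 h, zero_add]
      change ek 0 u⁻¹ = _
      rw [ek_ne 0 (inv_ne_zero h), zero_add, inv_inv]

theorem cont_io : Continuous io := by
  rw [OnePoint.continuous_iff]
  refine ⟨?_, cont_ek 0⟩
  rw [coclosedCompact_eq_cocompact, ← Metric.cobounded_eq_cocompact]
  refine ((OnePoint.continuous_coe.tendsto (0 : ℂ)).comp tendsto_inv₀_cobounded).congr' ?_
  filter_upwards [Bornology.eventually_ne_cobounded (0 : ℂ)] with u hu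
  change _ = ek 0 u
  rw [ek_ne 0 hu, zero_add]
  rfl

/-- inversion as a homeomorphism -/
noncomputable def ih : OnePoint ℂ ≃ₜ OnePoint ℂ where
  toFun := io
  invFun := io
  left_inv := io_io
  right_inv := io_io
  continuous_toFun := cont_io
  continuous_invFun := cont_io

theorem emb_ek (k : ℂ) : IsOpenEmbedding (ek k) := by
  have e : ek k = (Homeomorph.addLeft k).onePointCongr ∘ ih ∘ (↑) := by
    funext u
    change _ = OnePoint.map (Homeomorph.addLeft k) (ek 0 u)
    by_cases h : u = 0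
    · rw [h, ek_zero, ek_zero]; rfl
    · rw [ek_ne _ h, ek_ne _ h, zero_add]; rfl
  rw [e]
  exact (Homeomorph.isOpenEmbedding _).comp
    (ih.isOpenEmbedding.comp OnePoint.isOpenEmbedding_coe)

theorem ek_inv {k v : ℂ} (h : v ≠ k) : ek k (v - k)⁻¹ = v := by
  rw [ek_ne k (inv_ne_zero (sub_ne_zero.2 h)), inv_inv, add_sub_cancel]

theorem range_ek (k : ℂ) : range (ek k) = {(k : OnePoint ℂ)}ᶜ := by
  ext z
  constructor
  · rintro ⟨u, rfl⟩ h
    by_cases hu : u = 0
    · rw [hu, ek_zero] at h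
      exact OnePoint.infty_ne_coe k h
    · rw [ek_ne k hu, mem_singleton_iff, OnePoint.coe_eq_coe, add_eq_left, inv_eq_zero] at h
      exact hu h
  · intro h
    induction z using OnePoint.rec with
    | infty => exact ⟨0, ek_zero k⟩
    | coe v => exact ⟨_, ek_inv fun e => h (e ▸ rfl)⟩

theorem qmp_inv : Measure.QuasiMeasurePreserving (fun u : ℂ => u⁻¹) volume volume := by
  refine ⟨measurable_inv, Measure.AbsolutelyContinuous.mk fun s hs h0 => ?_⟩
  rw [Measure.map_apply measurable_inv hs]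
  have h1 : volume ((fun u : ℂ => u⁻¹) '' (s \ {0})) = 0 :=
    addHaar_image_eq_zero_of_differentiableOn_of_addHaar_eq_zero volume
      ((differentiableOn_inv (𝕜 := ℝ)).mono fun u hu => hu.2) (measure_mono_null diff_subset h0)
  refine measure_mono_null (fun u hu => ?_) (measure_union_null h1 (measure_singleton 0))
  by_cases h : u = 0
  · exact Or.inr h
  · exact Or.inl ⟨u⁻¹, ⟨hu, inv_ne_zero h⟩, inv_inv u⟩

theorem ae_ne (k : ℂ) : ∀ᵐ z : ℂ, z ≠ k := compl_mem_ae_iff.2 (measure_singleton k)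

theorem qmp1 (k : ℂ) : Measure.QuasiMeasurePreserving (fun u : ℂ => k + u⁻¹) volume volume :=
  (measurePreserving_add_left volume k).quasiMeasurePreserving.comp qmp_inv

theorem qmp2 (k : ℂ) : Measure.QuasiMeasurePreserving (fun v : ℂ => (v - k)⁻¹) volume volume :=
  qmp_inv.comp (measurePreserving_sub_right volume k).quasiMeasurePreserving

end Emb

open Emb

theorem stEmb : StEmb := by
  intro k
  refine ⟨emb_ek k, range_ek k, fun p => ⟨fun h => ?_, fun h => ?_⟩,
    fun S => ⟨fun h => ?_, fun h => ?_⟩⟩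
  · filter_upwards [(qmp2 k).ae h, ae_ne k] with v h1 h2
    rwa [ek_inv h2] at h1
  · filter_upwards [(qmp1 k).ae h, ae_ne 0] with u h1 h2
    rwa [ek_ne k h2]
  · refine (NullMeasurableSet.preimage h (qmp2 k)).congr ?_
    filter_upwards [ae_ne k] with v h2
    change (ek k (v - k)⁻¹ ∈ S) = ((v : OnePoint ℂ) ∈ S)
    rw [ek_inv h2]
  · refine (NullMeasurableSet.preimage h (qmp1 k)).congr ?_
    filter_upwards [ae_ne 0] with u h2
    change (((k + u⁻¹ : ℂ) : OnePoint ℂ) ∈ S) = (ek k u ∈ S)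
    rw [ek_ne k h2]

theorem stTop : StTop := by
  constructor
  · rw [locallyConnectedSpace_iff_connected_subsets]
    have key : ∀ e : ℂ → OnePoint ℂ, IsOpenEmbedding e → ∀ z, ∀ U ∈ 𝓝 (e z),
        ∃ V ∈ 𝓝 (e z), IsPreconnected V ∧ V ⊆ U := by
      intro e he z U hU
      obtain ⟨V, h1, h2, h3⟩ := locallyConnectedSpace_iff_connected_subsets.1 inferInstance z _
        (he.continuous.continuousAt.preimage_mem_nhds hU)
      exact ⟨e '' V, he.isOpenMap.image_mem_nhds h1, h2.image _ he.continuous.continuousOn,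
        image_subset_iff.2 h3⟩
    intro x
    induction x using OnePoint.rec with
    | infty => exact ek_zero 0 ▸ key _ (emb_ek 0) 0
    | coe v => exact key _ OnePoint.isOpenEmbedding_coe v
  · exact (onePointEquivSphereOfFinrankEq (ι := Fin 3) (V := ℂ) (by simp)).secondCountableTopology

end Pool.Agent.MP_255345_an

end

section

/-! Schottky's theorem from the Bloch-Landau theorem. -/

open Set Filter Topology Metric

namespace Pool.Agent.MP_255345_an

namespace Sch

/-- A holomorphic logarithm on a disc. -/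
lemma hlog {j : ℂ → ℂ} {z : ℂ} {R : ℝ} (hR : 0 < R) (hd : DifferentiableOn ℂ j (ball z R))
    (hne : ∀ x ∈ ball z R, j x ≠ 0) :
    ∃ L : ℂ → ℂ, DifferentiableOn ℂ L (ball z R) ∧ L z = Complex.log (j z) ∧
      ∀ x ∈ ball z R, Complex.exp (L x) = j x := by
  have hq : DifferentiableOn ℂ (fun x => deriv j x / j x) (ball z R) :=
    (hd.deriv isOpen_ball).div hd hne
  obtain ⟨L, hL0, hL⟩ := hq.isExactOn_ball.with_val_at z (Complex.log (j z))
  refine ⟨L, fun x hx => (hL x hx).differentiableAt.differentiableWithinAt, hL0, ?_⟩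
  have h1 : ∀ x ∈ ball z R, HasDerivAt (fun x => j x * Complex.exp (-L x)) 0 x := by
    intro x hx
    have h2 := (hd.differentiableAt (isOpen_ball.mem_nhds hx)).hasDerivAt.fun_mul
      (hL x hx).fun_neg.cexp
    refine h2.congr_deriv ?_
    have := hne x hx
    field_simp
    ring
  intro x hx
  have h2 := isOpen_ball.is_const_of_deriv_eq_zero (convex_ball z R).isPreconnected
    (fun x hx => (h1 x hx).differentiableAt.differentiableWithinAt)
    (fun x hx => (h1 x hx).deriv) hx (mem_ball_self hR)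
  simp only [hL0, Complex.exp_neg, Complex.exp_log (hne z (mem_ball_self hR))] at h2
  rw [mul_inv_cancel₀ (hne z (mem_ball_self hR)),
    mul_inv_eq_one₀ (Complex.exp_ne_zero _)] at h2
  exact h2.symm

/-- A holomorphic inverse hyperbolic cosine on a disc. -/
lemma harc {F : ℂ → ℂ} {c : ℂ} {R : ℝ} (hR : 0 < R) (hd : DifferentiableOn ℂ F (ball c R))
    (hne : ∀ x ∈ ball c R, F x ≠ 1 ∧ F x ≠ -1) :
    ∃ M : ℂ → ℂ, DifferentiableOn ℂ M (ball c R) ∧ ‖M c‖ ≤ 2 * ‖F c‖ + 5 ∧
      ∀ x ∈ ball c R, Complex.cosh (M x) = F x := by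
  obtain ⟨L, hL, -, eL⟩ := hlog (j := fun x => F x ^ 2 - 1) hR ((hd.pow 2).sub_const 1) (by
    intro x hx h
    have h2 : (F x - 1) * (F x + 1) = 0 := by linear_combination h
    rcases mul_eq_zero.1 h2 with h3 | h3
    · exact (hne x hx).1 (by linear_combination h3)
    · exact (hne x hx).2 (by linear_combination h3))
  set S : ℂ → ℂ := fun x => Complex.exp (L x / 2) with hS
  have hSd : DifferentiableOn ℂ S (ball c R) := (hL.div_const 2).cexp
  have hS2 : ∀ x ∈ ball c R, S x ^ 2 = F x ^ 2 - 1 := by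
    intro x hx
    rw [← eL x hx, hS, sq, ← Complex.exp_add]
    congr 1
    ring
  have hprod : ∀ x ∈ ball c R, (F x + S x) * (F x - S x) = 1 := by
    intro x hx
    linear_combination (-1 : ℂ) * hS2 x hx
  have hn : ∀ x ∈ ball c R, F x + S x ≠ 0 := fun x hx => left_ne_zero_of_mul_eq_one (hprod x hx)
  obtain ⟨M, hM, hM0, eM⟩ := hlog (j := fun x => F x + S x) hR (hd.add hSd) hn
  refine ⟨M, hM, ?_, ?_⟩
  · have hc := mem_ball_self (x := c) hR
    have h1 : ‖S c‖ ≤ ‖F c‖ + 1 := by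
      have h2 : ‖S c‖ ^ 2 ≤ ‖F c‖ ^ 2 + 1 := by
        rw [← norm_pow, hS2 c hc, ← norm_pow]
        exact (norm_sub_le (F c ^ 2) 1).trans_eq (by rw [norm_one])
      nlinarith [norm_nonneg (S c), norm_nonneg (F c)]
    have h3 : ‖F c + S c‖ ≤ 2 * ‖F c‖ + 1 := (norm_add_le _ _).trans (by linarith)
    have h4 : ‖F c - S c‖ ≤ 2 * ‖F c‖ + 1 := (norm_sub_le _ _).trans (by linarith)
    have h5 : ‖F c + S c‖⁻¹ = ‖F c - S c‖ := by
      rw [← norm_inv, inv_eq_of_mul_eq_one_right (hprod c hc)]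
    have hp : 0 < ‖F c + S c‖ := norm_pos_iff.2 (hn c hc)
    have h6 := Real.log_le_self hp.le
    have h7 := Real.log_le_self (inv_pos.2 hp).le
    rw [Real.log_inv, h5] at h7
    have h8 : |(M c).re| ≤ 2 * ‖F c‖ + 1 := by
      rw [hM0, Complex.log_re, abs_le]
      constructor <;> linarith
    have h9 : |(M c).im| ≤ 4 := by
      rw [hM0, Complex.log_im]
      exact (Complex.abs_arg_le_pi _).trans Real.pi_le_four
    linarith [Complex.norm_le_abs_re_add_abs_im (M c)]
  · intro x hx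
    have h1 : Complex.exp (-M x) = F x - S x := by
      rw [Complex.exp_neg, eM x hx, inv_eq_of_mul_eq_one_right (hprod x hx)]
    have h2 := Complex.two_cosh (M x)
    rw [h1, eM x hx] at h2
    linear_combination (1 / 2 : ℂ) * h2

lemma norm_cosh_le (w : ℂ) : ‖Complex.cosh w‖ ≤ Real.exp ‖w‖ := by
  have h1 := Complex.norm_exp_le_exp_norm w
  have h2 := Complex.norm_exp_le_exp_norm (-w)
  rw [norm_neg] at h2
  have h3 : ‖2 * Complex.cosh w‖ ≤ _ := Complex.two_cosh w ▸ norm_add_le _ _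
  rw [norm_mul, Complex.norm_two] at h3
  linarith

/-- The real hyperbolic cosine takes an integer value near every point. -/
lemma near_int (x : ℝ) : ∃ (t : ℝ) (n : ℤ), |t - x| ≤ 3 ∧ Real.cosh t = n := by
  have key : ∀ a : ℝ, 0 ≤ a → ∃ (t : ℝ) (n : ℤ), |t - a| ≤ 3 ∧ Real.cosh t = n := by
    intro a ha
    have h3 : 2 ≤ Real.cosh 3 := by
      rw [Real.cosh_eq]
      have := Real.add_one_le_exp 3
      have := Real.exp_pos (-3)
      linarith
    have h4 : Real.cosh a + 1 ≤ Real.cosh (a + 3) := by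
      rw [Real.cosh_add]
      have := Real.one_le_cosh a
      have := mul_nonneg (Real.sinh_nonneg_iff.2 ha) (Real.sinh_nonneg_iff.2 (by norm_num : (0 : ℝ) ≤ 3))
      nlinarith
    obtain ⟨t, ht, et⟩ := intermediate_value_Icc (by linarith : a ≤ a + 3)
      Real.continuous_cosh.continuousOn (show ((⌈Real.cosh a⌉ : ℤ) : ℝ) ∈ _ from
        ⟨Int.le_ceil _, (Int.ceil_lt_add_one _).le.trans h4⟩)
    exact ⟨t, _, by rw [abs_le]; constructor <;> linarith [ht.1, ht.2], et⟩
  rcases le_total 0 x with h | h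
  · exact key x h
  · obtain ⟨t, n, h1, h2⟩ := key (-x) (by linarith)
    exact ⟨-t, n, by rw [← abs_neg]; convert h1 using 2; ring, by rw [Real.cosh_neg, h2]⟩

/-- Every disc of radius twelve contains a point with integral hyperbolic cosine. -/
lemma near_int' (b : ℂ) : ∃ w ∈ ball b 12, ∃ n : ℤ, Complex.cosh w = n := by
  obtain ⟨t, n, h1, h2⟩ := near_int b.re
  have hp : 0 < 2 * Real.pi := by positivity
  set m : ℤ := ⌊b.im / (2 * Real.pi)⌋ with hm
  refine ⟨t + m * (2 * Real.pi * Complex.I), ?_, n, ?_⟩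
  · rw [mem_ball_iff_norm]
    refine (Complex.norm_le_abs_re_add_abs_im _).trans_lt ?_
    have e1 : ((t : ℂ) + m * (2 * Real.pi * Complex.I) - b).re = t - b.re := by simp
    have e2 : ((t : ℂ) + m * (2 * Real.pi * Complex.I) - b).im = m * (2 * Real.pi) - b.im := by
      simp
    rw [e1, e2]
    have h3 : (m : ℝ) * (2 * Real.pi) ≤ b.im := (le_div_iff₀ hp).1 (Int.floor_le _)
    have h4 : b.im < (m + 1 : ℝ) * (2 * Real.pi) := (div_lt_iff₀ hp).1 (Int.lt_floor_add_one _)
    have h5 : |(m : ℝ) * (2 * Real.pi) - b.im| ≤ 8 := by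
      rw [abs_le]
      constructor <;> nlinarith [Real.pi_le_four]
    linarith
  · have h3 := Complex.two_cosh (t + m * (2 * Real.pi * Complex.I))
    have h4 := Complex.two_cosh t
    rw [neg_add, Complex.exp_add, Complex.exp_add, Complex.exp_neg (m * _),
      Complex.exp_int_mul_two_pi_mul_I, inv_one, mul_one, mul_one, ← h4, ← Complex.ofReal_cosh,
      h2] at h3
    simpa using h3

end Sch

open Sch in
theorem stSch : StSch := by
  refine ⟨Real.exp (4 * Real.exp 1200) + 1, fun h c R hR hd hne hc z hz => ?_⟩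
  obtain ⟨M, hM, hM0, eM⟩ := harc (F := fun x => 2 * h x - 1) hR
    ((hd.const_mul 2).sub_const 1) (fun x hx =>
      ⟨fun e => (hne x hx).2 (by linear_combination (1 / 2 : ℂ) * e),
        fun e => (hne x hx).1 (by linear_combination (1 / 2 : ℂ) * e)⟩)
  have hpi : (Real.pi : ℂ) * Complex.I ≠ 0 := by simp [Real.pi_ne_zero]
  have hnpi : ‖(Real.pi : ℂ) * Complex.I‖ = Real.pi := by simp [abs_of_pos Real.pi_pos]
  have hint : ∀ x ∈ ball c R, ∀ n : ℤ, M x / (Real.pi * Complex.I) ≠ n := by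
    intro x hx n e
    rw [div_eq_iff hpi] at e
    have h1 := eM x hx
    have h2 : Complex.sinh (M x) = 0 := by
      rw [e, ← mul_assoc, Complex.sinh_mul_I, Complex.sin_int_mul_pi, zero_mul]
    have h3 := Complex.cosh_sq (M x)
    rw [h1, h2] at h3
    have h4 : h x * (h x - 1) = 0 := by linear_combination (1 / 4 : ℂ) * h3
    rcases mul_eq_zero.1 h4 with h5 | h5
    · exact (hne x hx).1 h5
    · exact (hne x hx).2 (sub_eq_zero.1 h5)
  obtain ⟨G, hG, hG0, eG⟩ := harc (F := fun x => M x / (Real.pi * Complex.I)) hR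
    (hM.div_const _) (fun x hx =>
      ⟨by simpa using hint x hx 1, by simpa using hint x hx (-1)⟩)
  have hF0 : ‖2 * h c - 1‖ ≤ 3 := by
    have := norm_sub_le (2 * h c) 1
    rw [norm_mul, Complex.norm_two, norm_one] at this
    linarith
  have hq0 : ‖M c / (Real.pi * Complex.I)‖ ≤ 11 := by
    rw [norm_div, hnpi, div_le_iff₀ Real.pi_pos]
    nlinarith [Real.pi_gt_three]
  have hder : ∀ x ∈ ball c (R / 2), ‖deriv G x‖ ≤ 2304 / R := by
    intro x hx
    have hsub : ball x (R / 2) ⊆ ball c R := ball_subset_ball' (by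
      rw [mem_ball] at hx
      linarith)
    obtain ⟨b, hb⟩ := KoebeAux.bloch (half_pos hR) (hG.mono hsub)
    by_contra hlt
    rw [not_le, div_lt_iff₀ hR] at hlt
    obtain ⟨w, hw, n, en⟩ := near_int' b
    obtain ⟨y, hy, ey⟩ := hb (ball_subset_ball (by linarith) hw)
    exact hint y (hsub hy) n (by rw [← en, ← ey, eG y (hsub hy)])
  have hsub : ball c (R / 2) ⊆ ball c R := ball_subset_ball (by linarith)
  have hmv := (convex_ball c (R / 2)).norm_image_sub_le_of_norm_deriv_le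
    (fun x hx => hG.differentiableAt (isOpen_ball.mem_nhds (hsub hx))) hder
    (mem_ball_self (half_pos hR)) hz
  have hz' : ‖z - c‖ ≤ R / 2 := (mem_ball_iff_norm.1 hz).le
  have h1 : 2304 / R * ‖z - c‖ ≤ 1152 :=
    (mul_le_mul_of_nonneg_left hz' (by positivity)).trans_eq (by field_simp; ring)
  have h2 : ‖G z‖ ≤ 1200 := by
    have := norm_le_norm_add_norm_sub' (G z) (G c)
    linarith
  have h3 : ‖M z‖ ≤ 4 * Real.exp 1200 := by
    have h4 := (norm_cosh_le (G z)).trans (Real.exp_le_exp.2 h2)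
    rw [eG z (hsub hz), norm_div, hnpi, div_le_iff₀ Real.pi_pos] at h4
    nlinarith [Real.pi_le_four, Real.exp_pos 1200]
  have h4 := (norm_cosh_le (M z)).trans (Real.exp_le_exp.2 h3)
  rw [eM z (hsub hz)] at h4
  have h5 := norm_add_le (2 * h z - 1) 1
  rw [sub_add_cancel, norm_mul, Complex.norm_two, norm_one] at h5
  linarith [norm_nonneg (h z)]

end Pool.Agent.MP_255345_an

end
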