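import Pool.Agent.Mg.F255345.Gb59a5c
import Pool.Agent.MP_255345_an.Defs2
import Pool.Agent.Mg.F255345.Gd120a0

set_option linter.all false

section

/-! The density point argument. -/

open Set Filter Topology MeasureTheory Metric Polynomial

namespace Pool.Agent.MP_255345_an

namespace Den

theorem det_eq (w : ℂ) : |(w • (1 : ℂ →L[ℝ] ℂ)).det| = ‖w‖ ^ 2 := by
  have h : ((w • (1 : ℂ →L[ℝ] ℂ) : ℂ →L[ℝ] ℂ) : ℂ →ₗ[ℝ] ℂ) = Algebra.lmul ℝ ℂ w := by
    ext <;> simp
  rw [ContinuousLinearMap.det, h, ← Algebra.norm_apply, Algebra.norm_complex_apply,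
    Complex.normSq_eq_norm_sq, abs_of_nonneg (by positivity)]

theorem area {G : ℂ → ℂ} {z y : ℂ} {r δ : ℝ} {T : Set ℂ} (hr : 0 < r) (hδ : 0 < δ)
    (hG : ∀ u ∈ ball z r, AnalyticAt ℂ G u) (hm : MapsTo G (ball z r) (ball y δ))
    (hT : MeasurableSet T) : volume (G '' (T ∩ closedBall z (r / 2))) ≤
      volume (closedBall (0 : ℂ) (2 * δ)) *
        (volume (T ∩ closedBall z (r / 2)) / volume (closedBall z (r / 2))) := by
  have hs : closedBall z (r / 2) ⊆ ball z r := closedBall_subset_ball (by linarith)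
  have hd : ∀ u ∈ closedBall z (r / 2), ‖deriv G u‖ ≤ 2 * δ / (r / 2) := fun u hu => by
    have hb : ball u (r / 2) ⊆ ball z r := ball_subset_ball' (by linarith [mem_closedBall.1 hu])
    refine Complex.norm_deriv_le_div_of_mapsTo_ball
      (fun v hv => (hG v (hb hv)).differentiableAt.differentiableWithinAt) (fun v hv => ?_)
      (by linarith)
    have h1 := mem_ball.1 (hm (hb hv))
    have h2 := mem_ball.1 (hm (hs hu))
    exact mem_closedBall.2 (by linarith [dist_triangle_right (G v) (G u) y])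
  have hM := hT.inter (measurableSet_closedBall (x := z) (ε := r / 2))
  refine (addHaar_image_le_lintegral_abs_det_fderiv volume hM
    (f' := fun u => deriv G u • (1 : ℂ →L[ℝ] ℂ)) fun u hu =>
      (hG u (hs hu.2)).differentiableAt.hasDerivAt.complexToReal_fderiv.hasFDerivWithinAt).trans ?_
  refine (setLIntegral_mono' (g := fun _ => ENNReal.ofReal ((2 * δ / (r / 2)) ^ 2)) hM
    fun u hu => ENNReal.ofReal_le_ofReal ?_).trans_eq ?_
  · rw [det_eq]
    exact pow_le_pow_left₀ (norm_nonneg _) (hd u hu.2) 2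
  · have e : volume (closedBall (0 : ℂ) (2 * δ)) =
        ENNReal.ofReal ((2 * δ / (r / 2)) ^ 2) * volume (closedBall z (r / 2)) := by
      rw [Complex.volume_closedBall, Complex.volume_closedBall, ← mul_assoc,
        ENNReal.ofReal_pow (by positivity), ← mul_pow, ← ENNReal.ofReal_mul (by positivity),
        div_mul_cancel₀ _ (by positivity)]
    rw [setLIntegral_const, e, mul_assoc, ENNReal.mul_div_cancel
      (measure_closedBall_pos _ _ (by positivity)).ne' measure_closedBall_lt_top.ne]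

end Den

theorem stDen : StDen := by
  intro X _ f e k P Q K A h hk hK hA hf
  have hS : NullMeasurableSet (e ⁻¹' A)ᶜ volume := NullMeasurableSet.compl hA
  have hT := measurableSet_toMeasurable volume (e ⁻¹' A)ᶜ
  filter_upwards [Besicovitch.ae_tendsto_measure_inter_div_of_measurableSet volume hT,
    hS.toMeasurable_ae_eq.mem_iff] with z h1 h2 hz hc
  rw [indicator_of_notMem fun h3 => h2.1 h3 hz] at h1
  obtain ⟨δ, c, m, C, hδ, hc0, hC, H⟩ := hc
  have hρ : 0 < c * (1 / 2) ^ m * δ / 2 := by positivity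
  obtain ⟨t, -, ht, hcov⟩ := finite_cover_balls_of_compact hC hρ
  by_contra hn
  have hpos : ∀ s : ℂ, 0 < volume (ball s (c * (1 / 2) ^ m * δ / 2) \ e ⁻¹' A) := fun s =>
    pos_iff_ne_zero.2 fun h0 => hn ⟨_, h.emb.isOpenMap _ isOpen_ball,
      (nonempty_ball.2 hρ).image e, by
        rwa [nul, preimage_sdiff, preimage_image_eq _ h.emb.injective]⟩
  have h3 := ENNReal.Tendsto.const_mul (a := volume (closedBall (0 : ℂ) (2 * δ))) h1
    (Or.inr measure_closedBall_lt_top.ne)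
  rw [mul_zero] at h3
  obtain ⟨η, hη, h4⟩ := mem_nhdsGT_iff_exists_Ioo_subset.1
    ((eventually_all_finite ht).2 fun s _ => h3.eventually (gt_mem_nhds (hpos s)))
  obtain ⟨n, y, r, hy, hr, hrη, hd, hR⟩ := H η hη
  obtain ⟨s, hs, hys⟩ := mem_iUnion₂.1 (hcov hy)
  have hi := fun u (hu : u ∈ ball z r) => h.iter (n := n) (u := u) fun i hi e1 =>
    avoid hK (disjoint_left.1 hd (hR.1 u hu)) hi (e1 ▸ hk)
  have hm : MapsTo (fun z => P.eval z / Q.eval z)^[n] (ball z r) (ball y δ) := fun u hu => by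
    obtain ⟨v, hv, e1⟩ := hR.1 u hu
    rw [(hi u hu).1] at e1
    exact h.emb.injective e1 ▸ hv
  refine (h4 (show r / 2 ∈ Ioo 0 η from ⟨by linarith, by linarith⟩) s hs).not_ge
    ((measure_mono fun v hv => ?_).trans (Den.area hr hδ (fun u hu => (hi u hu).2) hm hT))
  obtain ⟨u, hu, e1⟩ := hR.2 (1 / 2) (by norm_num) (by norm_num) v
    (ball_subset_ball' (by linarith [mem_ball'.1 hys]) hv.1)
  refine ⟨u, ⟨subset_toMeasurable _ _ fun h5 => hv.2 ?_,
    ball_subset_closedBall (ball_subset_ball (by linarith) hu)⟩, h.emb.injective ?_⟩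
  · exact mem_preimage.2 (e1 ▸ hf.iterate n h5)
  · rw [← e1, (hi u (ball_subset_ball (by linarith) hu)).1]

end Pool.Agent.MP_255345_an

end

section

/-! The first entry argument. -/

open Set Filter Topology Metric

namespace Pool.Agent.MP_255345_an

namespace Puz

variable {X : Type} [TopologicalSpace X] {f : X → X} {K : Set X}

theorem anti (hK : MapsTo f K K) {d d' : ℕ} (h : d ≤ d') (z : X) :
    piece f K d' z ⊆ piece f K d z :=
  connectedComponentIn_mono _ fun _ hw => avoid hK hw h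

theorem same {d : ℕ} {z w c : X} (h1 : c ∈ piece f K d z) (h2 : c ∈ piece f K d w) :
    z ∈ piece f K d w := by
  have h3 : z ∈ piece f K d z :=
    mem_connectedComponentIn (connectedComponentIn_nonempty_iff.1 ⟨c, h1⟩)
  have e1 : piece f K d z = piece f K d c := connectedComponentIn_eq h1
  have e2 : piece f K d w = piece f K d c := connectedComponentIn_eq h2
  rw [e2, ← e1]
  exact h3

theorem map (hf : Continuous f) {d s : ℕ} {z w : X} (h : w ∈ piece f K (d + s) z) :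
    f^[s] w ∈ piece f K d (f^[s] z) := by
  have h1 : w ∈ pb f (d + s) 0 Kᶜ z := h
  have h2 := pb_map hf (Nat.zero_le s) (Nat.le_add_left s d) h1
  rw [pb, Nat.add_sub_cancel] at h2
  exact h2

/-- before the first entry every critical point is met at most once -/
theorem first (hf : Continuous f) (hK : MapsTo f K K) (hc : {c | IsCrit f c}.Finite) {x a : X}
    {m N : ℕ} (hm : f^[m] x ∈ piece f K N a) (hmin : ∀ i < m, f^[i] x ∉ piece f K N a) :
    {i | i < m ∧ ∃ c ∈ piece f K (m + N - i) (f^[i] x), IsCrit f c}.ncard ≤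
      {c | IsCrit f c}.ncard := by
  classical
  have key : ∀ i i' c, i < i' → i' < m → c ∈ piece f K (m + N - i) (f^[i] x) →
      c ∈ piece f K (m + N - i') (f^[i'] x) → False := by
    intro i i' c h1 h2 h3 h4
    have h5 := same (anti hK (show m + N - i' ≤ m + N - i by omega) _ h3) h4
    rw [show m + N - i' = N + (m - i') by omega] at h5
    have h6 := map hf h5
    rw [iter_iter h2.le, ← Function.iterate_add_apply] at h6
    have e1 : piece f K N a = piece f K N (f^[m] x) := connectedComponentIn_eq hm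
    rw [← e1] at h6
    exact hmin _ (by omega) h6
  have ex : ∀ i, ∃ c, (i < m ∧ ∃ c ∈ piece f K (m + N - i) (f^[i] x), IsCrit f c) →
      c ∈ piece f K (m + N - i) (f^[i] x) ∧ IsCrit f c := by
    intro i
    by_cases h : i < m ∧ ∃ c ∈ piece f K (m + N - i) (f^[i] x), IsCrit f c
    · obtain ⟨c, h1⟩ := h.2
      exact ⟨c, fun _ => h1⟩
    · exact ⟨x, fun h' => (h h').elim⟩
  choose g hg using ex
  refine Set.ncard_le_ncard_of_injOn g (fun i hi => (hg i hi).2) (fun i hi i' hi' h => ?_) hc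
  rcases lt_trichotomy i i' with h1 | h1 | h1
  · exact (key i i' (g i) h1 hi'.1 (hg i hi).1 (h ▸ (hg i' hi').1)).elim
  · exact h1
  · exact (key i' i (g i') h1 hi.1 (hg i' hi').1 (h ▸ (hg i hi).1)).elim

theorem delta {e : ℂ → X} (he : Continuous e) (hK : IsClosed K) {W : Set (X × X)} (hW : IsOpen W)
    (hd : ∀ p, (p, p) ∈ W) {C : Set ℂ} (hC : IsCompact C) (hCK : ∀ y ∈ C, e y ∉ K) :
    ∃ δ : ℝ, 0 < δ ∧ ∀ y ∈ C, ∀ u ∈ ball y δ, (e y, e u) ∈ W ∧ e u ∉ K := by
  have h1 : IsOpen {p : ℂ × ℂ | (e p.1, e p.2) ∈ W ∧ e p.2 ∉ K} :=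
    (hW.preimage (by fun_prop : Continuous fun p : ℂ × ℂ => (e p.1, e p.2))).inter
      (hK.isOpen_compl.preimage (by fun_prop : Continuous fun p : ℂ × ℂ => e p.2))
  have h2 : IsCompact ((fun y : ℂ => (y, y)) '' C) := hC.image (by fun_prop)
  obtain ⟨δ, h3, h4⟩ := h2.exists_thickening_subset_open h1 (by
    rintro _ ⟨y, hy, rfl⟩
    exact ⟨hd _, hCK y hy⟩)
  refine ⟨δ, h3, fun y hy u hu => h4 (a := (y, u)) ?_⟩
  refine mem_thickening_iff.2 ⟨(y, y), ⟨y, hy, rfl⟩, ?_⟩
  rw [Prod.dist_eq, dist_self]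
  exact max_lt h3 hu

end Puz

open Puz in
theorem stPuz : StPuz := by
  intro X _ f e k P Q K a x h hK hk hKK ⟨N, O, W, hN, hO, hKO, hW, hd, hU⟩ ⟨ha, B₀, hB⟩ hax
  classical
  have hf := h.cont
  obtain ⟨V, hV, hVc, hVK⟩ := exists_mem_nhds_isClosed_subset
    (hK.isOpen_compl.mem_nhds (ha 0 : a ∈ Kᶜ))
  set O' : Set X := O ∩ ⋂ s ∈ Finset.range N, f^[s] ⁻¹' Vᶜ with hO'
  have o1 : IsOpen O' := hO.inter
    (isOpen_biInter_finset fun s _ => hVc.isOpen_compl.preimage (hf.iterate s))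
  have o2 : K ⊆ O' := fun z hz => ⟨hKO hz, mem_iInter₂.2 fun s _ hs => hVK hs (hKK.iterate s hz)⟩
  have o3 : O'ᶜ ⊆ range e := fun z hz => h.ex fun hzk => hz (o2 (hzk ▸ hk))
  have hC : IsCompact (e ⁻¹' O'ᶜ) :=
    (h.emb.isInducing.isCompact_preimage_iff o3).2 o1.isClosed_compl.isCompact
  obtain ⟨δ, hδ, hδ'⟩ := delta h.emb.continuous hK hW hd hC fun y hy hy' => hy (o2 hy')
  refine ⟨{c | IsCrit f c}.ncard + B₀, δ, _, hδ, hC, fun n₀ => ?_⟩
  obtain ⟨N', hN', hn₀⟩ := (hB.and_eventually (eventually_ge_atTop n₀)).exists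
  have a1 : IsOpen (piece f K N' a) :=
    (hK.preimage (hf.iterate N')).isOpen_compl.connectedComponentIn
  have a2 : a ∈ piece f K N' a := mem_connectedComponentIn (ha N')
  have ex1 : ∃ m, f^[m] x ∈ piece f K N' a := (mem_om.1 hax _ (a1.mem_nhds a2)).exists
  obtain ⟨m, hm, hmin⟩ : ∃ m, f^[m] x ∈ piece f K N' a ∧ ∀ i < m, f^[i] x ∉ piece f K N' a :=
    ⟨Nat.find ex1, Nat.find_spec ex1, fun i hi => Nat.find_min ex1 hi⟩
  have ex2 : ∃ j, f^[j * N] (f^[m + N'] x) ∉ O' := by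
    by_contra hcon
    push Not at hcon
    obtain ⟨n, h1, h2⟩ := ((mem_om.1 hax V hV).and_eventually (eventually_ge_atTop (m + N'))).exists
    obtain ⟨l, rfl⟩ := Nat.exists_eq_add_of_le' h2
    have h3 := mem_iInter₂.1 (hcon (l / N)).2 (l % N) (Finset.mem_range.2 (Nat.mod_lt l hN))
    rw [mem_preimage, ← Function.iterate_add_apply, ← Function.iterate_add_apply,
      Nat.mod_add_div' l N] at h3
    exact h3 h1
  obtain ⟨j, hj, hjmin⟩ : ∃ j, f^[j * N] (f^[m + N'] x) ∉ O' ∧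
      ∀ i < j, f^[i * N] (f^[m + N'] x) ∈ O' :=
    ⟨Nat.find ex2, Nat.find_spec ex2, fun i hi => not_not.1 (Nat.find_min ex2 hi)⟩
  obtain ⟨y, hy⟩ := o3 hj
  have hyC : y ∈ e ⁻¹' O'ᶜ := by
    rw [mem_preimage, hy]
    exact hj
  have hDK : e '' ball y δ ⊆ Kᶜ := by
    rintro _ ⟨u, hu, rfl⟩
    exact (hδ' y hyC u hu).2
  have hDW : e '' ball y δ ⊆ {u | (f^[j * N] (f^[m + N'] x), u) ∈ W} := by
    rintro _ ⟨u, hu, rfl⟩
    rw [← hy]
    exact (hδ' y hyC u hu).1
  refine ⟨j * N + (m + N'), by omega, y, hyC, by rw [Function.iterate_add_apply, hy],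
    disjoint_left.2 fun z hz => hDK hz, ?_⟩
  have sub : {i | i < j * N + (m + N') ∧
      ∃ c ∈ pb f (j * N + (m + N')) i (e '' ball y δ) x, IsCrit f c} ⊆
      {i | i < m ∧ ∃ c ∈ piece f K (m + N' - i) (f^[i] x), IsCrit f c} ∪
      (· + m) '' {i | i < N' ∧ ∃ c ∈ piece f K (N' - i) (f^[i] a), IsCrit f c} := by
    rintro i ⟨hi, c, hc, hcc⟩
    by_cases h1 : m + N' ≤ i
    · obtain ⟨l, rfl⟩ := Nat.exists_eq_add_of_le' h1
      rw [pb_shift] at hc
      exact (hU j _ (fun i hi => (hjmin i hi).1) l (by omega) c (pb_mono hDW hc) hcc).elim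
    have h2 : c ∈ piece f K (j * N + (m + N') - i) (f^[i] x) := pb_mono hDK hc
    have h3 := anti hKK (show m + N' - i ≤ j * N + (m + N') - i by omega) _ h2
    by_cases h4 : i < m
    · exact Or.inl ⟨h4, c, h3, hcc⟩
    obtain ⟨l, rfl⟩ := Nat.exists_eq_add_of_le' (not_lt.1 h4)
    refine Or.inr ⟨l, ⟨by omega, c, ?_, hcc⟩, rfl⟩
    have h5 : f^[m] x ∈ piece f K (N' - l + l) a := by
      rwa [show N' - l + l = N' by omega]
    have h6 := map hf h5
    have e1 : piece f K (N' - l) (f^[l] a) = piece f K (N' - l) (f^[l] (f^[m] x)) :=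
      connectedComponentIn_eq h6
    rw [e1, ← Function.iterate_add_apply, show N' - l = m + N' - (l + m) by omega]
    exact h3
  have f1 : {i | i < m ∧ ∃ c ∈ piece f K (m + N' - i) (f^[i] x), IsCrit f c}.Finite :=
    (finite_lt_nat m).subset fun i hi => hi.1
  have f2 : {i | i < N' ∧ ∃ c ∈ piece f K (N' - i) (f^[i] a), IsCrit f c}.Finite :=
    (finite_lt_nat N').subset fun i hi => hi.1
  refine (ncard_le_ncard sub (f1.union (f2.image _))).trans ((ncard_union_le _ _).trans ?_)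
  exact add_le_add (first hf hKK h.crit hm hmin) ((ncard_image_le f2).trans hN')

end Pool.Agent.MP_255345_an

end

section

/-! Orbits that stay near the expanding set form a null set. -/

open Set Filter Topology MeasureTheory Metric Polynomial

namespace Pool.Agent.MP_255345_an

section defs

variable {X : Type} [TopologicalSpace X]

/-- Pull-backs along orbits in `O` have no critical points and stay in `G`. -/
def Back (f : X → X) (K : Set X) (N : ℕ) (O : Set X) (W : Set (X × X)) (G : Set X) : Prop :=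
  IsOpen O ∧ K ⊆ O ∧ IsOpen W ∧ (∀ p, (p, p) ∈ W) ∧ ∀ j w, (∀ i < j, f^[i * N] w ∈ O) →
    ∀ i < j * N, ∀ c ∈ pb f (j * N) i {u | (f^[j * N] w, u) ∈ W} w, ¬ IsCrit f c ∧ c ∈ G

/-- Conical points, without reference to an invariant set. -/
def Con2 (e : ℂ → X) (f : X → X) (k : X) (z : ℂ) : Prop :=
  ∃ (δ c : ℝ) (m : ℕ) (C : Set ℂ), 0 < δ ∧ 0 < c ∧ IsCompact C ∧ ∀ η : ℝ, 0 < η →
    ∃ (n : ℕ) (y : ℂ) (r : ℝ), y ∈ C ∧ 0 < r ∧ r < η ∧
      (∀ u ∈ ball z r, ∀ i ≤ n, f^[i] (e u) ≠ k) ∧ Rel e f^[n] z y r δ c m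

end defs

open Uni in
theorem back_of_exp (hT : StTop) {f : OnePoint ℂ → OnePoint ℂ} {K : Set (OnePoint ℂ)}
    (hf : Continuous f) (ho : IsOpenMap f) (hK : IsClosed K) (hfK : MapsTo f K K)
    (hX : Expanding f K) : ∃ N, 0 < N ∧ ∀ G, IsOpen G → K ⊆ G → ∃ O W, Back f K N O W G := by
  obtain ⟨N, l, δ₀, hN, hl, hδ₀, hE₀⟩ := hX
  refine ⟨N, hN, fun G hG hKG => ?_⟩
  have := hT.1
  obtain ⟨δ₁, hδ₁, hG'⟩ : ∃ δ₁ > 0, ∀ x ∈ K, ∀ u, chord x u < δ₁ → ∀ s < N, f^[s] u ∈ G := by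
    have h1 : IsOpen (⋂ s ∈ Finset.range N, f^[s] ⁻¹' G) :=
      isOpen_biInter_finset fun s _ => hG.preimage (hf.iterate s)
    obtain ⟨δ₁, h2, h3⟩ := (hK.isCompact.image stereo_cont).exists_thickening_subset_open
      (h1.isClosed_compl.isCompact.image stereo_cont).isClosed.isOpen_compl (by
        rintro _ ⟨x, hx, rfl⟩ ⟨v, hv, e1⟩
        rw [stereo_inj e1] at hv
        exact hv (mem_iInter₂.2 fun s _ => hKG (hfK.iterate s hx)))
    refine ⟨δ₁, h2, fun x hx u hu s hs => ?_⟩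
    by_contra hc
    exact h3 (mem_thickening_iff.2 ⟨_, ⟨x, hx, rfl⟩, by rwa [dist_comm]⟩)
      ⟨u, fun h4 => hc (mem_iInter₂.1 h4 s (Finset.mem_range.2 hs)), rfl⟩
  obtain ⟨δ, hδ, d0, d1⟩ : ∃ δ > 0, δ ≤ δ₀ ∧ δ ≤ δ₁ :=
    ⟨min δ₀ δ₁, lt_min hδ₀ hδ₁, min_le_left _ _, min_le_right _ _⟩
  have hE : ∀ x ∈ K, ∀ u v, chord x u < δ → chord x v < δ →
      l * chord u v ≤ chord (f^[N] u) (f^[N] v) := fun x hx u v hu hv =>
    hE₀ x hx u v (hu.trans_le d0) (hv.trans_le d0)
  have hoi : ∀ n, IsOpenMap f^[n] := fun n => by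
    induction n with
    | zero => exact IsOpenMap.id
    | succ n ih => exact ih.comp ho
  refine ⟨⋃ x ∈ K, {u | chord x u < δ / 2}, {p | chord p.1 p.2 < δ / 2},
    isOpen_biUnion fun x _ => isOpen_lt (chord_cont x) continuous_const, fun x hx => ?_,
    isOpen_lt chord_cont₂ continuous_const, fun p => ?_, fun j w hw i hi c hc => ?_⟩
  · exact mem_biUnion hx (by rw [mem_ofPred_eq, chord_self]; linarith)
  · rw [mem_ofPred_eq, chord_self]
    linarith
  have hw' : ∀ i < j, ∃ x ∈ K, chord x (f^[i * N] w) < δ / 2 := fun i hi => by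
    simpa only [mem_iUnion, mem_ofPred_eq, exists_prop] using hw i hi
  obtain ⟨q, hq⟩ : ∃ q, q = i / N := ⟨_, rfl⟩
  have hqi : q * N ≤ i := hq ▸ Nat.div_mul_le_self i N
  have hqj : q < j := hq ▸ (Nat.div_lt_iff_lt_mul hN).2 hi
  have hs : i - q * N < N := by
    have := Nat.lt_div_mul_add (a := i) hN
    rw [← hq] at this
    omega
  obtain ⟨t, rfl⟩ := Nat.exists_eq_add_of_le' hqj.le
  change c ∈ pb f ((t + q) * N) i {u | chord (f^[(t + q) * N] w) u < δ / 2} w at hc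
  obtain ⟨u, hu, rfl⟩ := pb_surj hf (hoi _) (isOpen_lt (chord_cont _) continuous_const) hqi hi.le hc
  have h3 := pb_shift (f := f) (n := t * N) (i := 0) (x := w)
    (U := {u | chord (f^[(t + q) * N] w) u < δ / 2}) (q * N)
  rw [zero_add, ← add_mul] at h3
  rw [h3, add_mul, Function.iterate_add_apply] at hu
  have h4 := small hf hl hδ hE t (f^[q * N] w) (fun s hs => by
    have := hw' (s + q) (by omega)
    rwa [add_mul, Function.iterate_add_apply] at this) u hu
  obtain ⟨x, hx, hxw⟩ := hw' q hqj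
  have hB : IsOpen (f^[i - q * N] '' {v | chord x v < δ}) :=
    hoi _ _ (isOpen_lt (chord_cont x) continuous_const)
  have hxu : chord x u < δ := by linarith [chord_tri x (f^[q * N] w) u]
  refine ⟨fun hcr => hcr _ (hB.mem_nhds ⟨u, hxu, rfl⟩) ?_, hG' x hx u (hxu.trans_le d1) _ hs⟩
  rintro _ ⟨v, hv, rfl⟩ _ ⟨v', hv', rfl⟩ e1
  have e2 : ∀ y, f^[N] y = f^[N - (i - q * N) - 1] (f (f^[i - q * N] y)) := fun y => by
    rw [← Function.iterate_succ_apply, ← Function.iterate_add_apply]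
    congr 2
    omega
  have h5 := hE x hx v v' hv hv'
  rw [e2 v, e2 v', e1, chord_self] at h5
  have h6 : chord v v' ≤ 0 := by
    by_contra h7
    nlinarith [not_le.1 h7]
  rw [chord_eq h6]

variable {X : Type} [Sp X] {f : X → X} {e : ℂ → X} {k : X} {P Q : ℂ[X]}

theorem br2 (h : Ch f e k P Q) {n : ℕ} {z y : ℂ} {R : ℝ} (hR : 0 < R) (hz : f^[n] (e z) = e y)
    (hav : ∀ w ∈ pb f n 0 (e '' ball y R) (e z), ∀ i ≤ n, f^[i] w ≠ k)
    (hcr : ∀ i < n, ∀ c ∈ pb f n i (e '' ball y R) (e z), ¬ IsCrit f c) :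
    ∃ φ : ℂ → ℂ, DifferentiableOn ℂ φ (ball y R) ∧ φ y = z ∧
      ∀ u ∈ ball y R, f^[n] (e (φ u)) = e u := by
  classical
  have hDo : IsOpen (e '' ball y R) := h.emb.isOpenMap _ isOpen_ball
  have hYo : IsOpen (pb f n 0 (e '' ball y R) (e z)) := pb_open h.cont hDo
  have hinj : ∀ w ∈ pb f n 0 (e '' ball y R) (e z), ∃ V ∈ 𝓝 w, InjOn f^[n] V := fun w hw =>
    Br.loc_inj h.cont w n fun i hi => hcr i hi _ (pb_map h.cont (Nat.zero_le i) hi.le hw)
  have : ContractibleSpace (ball y R) := (convex_ball y R).contractibleSpace ⟨y, mem_ball_self hR⟩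
  have : LocallyPathConnectedSpace (ball y R) := isOpen_ball.locallyPathConnectedSpace
  obtain ⟨G, hG0, hG⟩ := Br.lift (A := ball y R) (h.cont.iterate n) (h.opn_iter n) hYo
    (D := e '' ball y R) (fun w hw h1 => mem_pb_of_closure hw h1) hinj
    ⟨fun a => e a, h.emb.continuous.comp continuous_subtype_val⟩ (fun a => ⟨a, a.2, rfl⟩)
    ⟨y, mem_ball_self hR⟩ (x₀ := e z)
    (mem_pb (i := 0) (by rw [hz]; exact ⟨y, mem_ball_self hR, rfl⟩) (Nat.zero_le n)) hz
  choose ψ hψ using fun a => h.ex (hav _ (hG a).1 0 (Nat.zero_le n))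
  have hψ' : ∀ a, e (ψ a) = G a := hψ
  have hψc : Continuous ψ := by
    rw [h.emb.isInducing.continuous_iff]
    exact G.continuous.congr fun a => (hψ' a).symm
  let φ : ℂ → ℂ := fun u => if hu : u ∈ ball y R then ψ ⟨u, hu⟩ else 0
  have hφ : ∀ u (hu : u ∈ ball y R), φ u = ψ ⟨u, hu⟩ := fun u hu => dif_pos hu
  have hφc : ContinuousOn φ (ball y R) := by
    rw [continuousOn_iff_continuous_domRestrict]
    exact hψc.congr fun a => (hφ a a.2).symm
  have hφY : ∀ u ∈ ball y R, e (φ u) ∈ pb f n 0 (e '' ball y R) (e z) := fun u hu => by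
    rw [hφ u hu, hψ']
    exact (hG _).1
  have hφe : ∀ u ∈ ball y R, f^[n] (e (φ u)) = e u := fun u hu => by
    rw [hφ u hu, hψ']
    exact (hG _).2
  refine ⟨φ, fun u hu => ?_, h.emb.injective ?_, hφe⟩
  · obtain ⟨V, hV, hVi⟩ := hinj _ (hφY u hu)
    have hU : IsOpen (e ⁻¹' (interior V ∩ pb f n 0 (e '' ball y R) (e z))) :=
      (isOpen_interior.inter hYo).preimage h.emb.continuous
    have hd := univ_deriv_ne_zero (j := (fun z => P.eval z / Q.eval z)^[n]) hU
      (fun t ht => (h.iter (hav _ ht.2)).2.differentiableAt.differentiableWithinAt)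
      (fun s hs t ht hst => h.emb.injective (hVi (interior_subset hs.1) (interior_subset ht.1) (by
        rw [(h.iter (hav _ hs.2)).1, (h.iter (hav _ ht.2)).1, hst])))
      (z := φ u) ⟨mem_interior_iff_mem_nhds.2 hV, hφY u hu⟩
    refine (HasDerivAt.of_local_left_inverse (hφc.continuousAt (isOpen_ball.mem_nhds hu))
      (h.iter (hav _ (hφY u hu))).2.differentiableAt.hasDerivAt hd
      ?_).differentiableAt.differentiableWithinAt
    filter_upwards [isOpen_ball.mem_nhds hu] with t ht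
    exact h.emb.injective ((h.iter (hav _ (hφY t ht))).1.symm.trans (hφe t ht))
  · rw [hφ y (mem_ball_self hR), hψ', hG0]

/-- An inverse branch gives controlled discs. -/
theorem rel_of_branch : ∃ c : ℝ, 0 < c ∧ c ≤ 1 ∧ ∀ {Y : Type} {e : ℂ → Y} {F : Y → Y} {φ : ℂ → ℂ}
    {y : ℂ} {R : ℝ}, Function.Injective e → 0 < R → DifferentiableOn ℂ φ (ball y R) →
    (∀ u ∈ ball y R, F (e (φ u)) = e u) → ∃ r : ℝ, 0 < r ∧ Rel e F (φ y) y r R c 1 := by
  obtain ⟨c, c0, c1, hk⟩ := koebe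
  obtain ⟨C, C1, hd⟩ := distort
  refine ⟨c / (2 * C), by positivity, by rw [div_le_one (by positivity)]; linarith, ?_⟩
  intro Y e F φ y R he hR d1 d3
  have hi : InjOn φ (ball y R) := fun u hu v hv e1 => he (by rw [← d3 u hu, ← d3 v hv, e1])
  have hp : 0 < ‖deriv φ y‖ :=
    norm_pos_iff.2 (univ_deriv_ne_zero isOpen_ball d1 hi (mem_ball_self hR))
  refine ⟨c * R * ‖deriv φ y‖, by positivity, fun u hu => ?_, fun τ t0 t1 v hv => ?_⟩
  · obtain ⟨v, hv, rfl⟩ := hk φ y R hR d1 hi hu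
    exact ⟨v, hv, (d3 v hv).symm⟩
  · rw [mem_ball_iff_norm, pow_one] at hv
    have h1 : c / (2 * C) * τ ≤ 1 / 2 * 1 :=
      mul_le_mul (by rw [div_le_div_iff₀ (by positivity) two_pos]; linarith) t1 t0.le (by norm_num)
    have h2 : ‖v - y‖ ≤ 3 / 4 * R := by nlinarith
    have hs : closedBall y (3 / 4 * R) ⊆ ball y R := closedBall_subset_ball (by linarith)
    have h3 := (convex_closedBall y (3 / 4 * R)).norm_image_sub_le_of_norm_deriv_le
      (fun x hx => d1.differentiableAt (isOpen_ball.mem_nhds (hs hx)))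
      (fun x hx => hd φ y R hR d1 hi x (mem_closedBall_iff_norm.1 hx))
      (mem_closedBall_self (by positivity)) (mem_closedBall_iff_norm.2 h2)
    refine ⟨φ v, ?_, d3 v (hs (mem_closedBall_iff_norm.2 h2))⟩
    rw [mem_ball_iff_norm]
    have h4 := mul_lt_mul_of_pos_left hv (by positivity : 0 < C * ‖deriv φ y‖)
    have h5 : C * ‖deriv φ y‖ * (c / (2 * C) * τ * R) = τ * (c * R * ‖deriv φ y‖) / 2 := by
      field_simp
    have h6 : 0 < τ * (c * R * ‖deriv φ y‖) := by positivity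
    linarith

theorem stUnb : StUnb := by
  obtain ⟨c, c0, c1, H⟩ := rel_of_branch
  refine ⟨c, c0, c1, ?_⟩
  intro X _ f e k P Q K h hk hf n z y R hR hz hD hc
  obtain ⟨φ, d1, rfl, d3⟩ := stBr X f e k P Q K h hk hf n z y R hR hz hD hc
  exact H h.emb.injective hR d1 d3

theorem den2 (h : Ch f e k P Q) {A : Set X} (hA : msb e A) (hf : MapsTo f A A) :
    ∀ᵐ z, e z ∈ A → Con2 e f k z → ∃ D, IsOpen D ∧ D.Nonempty ∧ nul e (D \ A) := by
  have hS : NullMeasurableSet (e ⁻¹' A)ᶜ volume := NullMeasurableSet.compl hA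
  have hT := measurableSet_toMeasurable volume (e ⁻¹' A)ᶜ
  filter_upwards [Besicovitch.ae_tendsto_measure_inter_div_of_measurableSet volume hT,
    hS.toMeasurable_ae_eq.mem_iff] with z h1 h2 hz hc
  rw [indicator_of_notMem fun h3 => h2.1 h3 hz] at h1
  obtain ⟨δ, c, m, C, hδ, hc0, hC, H⟩ := hc
  have hρ : 0 < c * (1 / 2) ^ m * δ / 2 := by positivity
  obtain ⟨t, -, ht, hcov⟩ := finite_cover_balls_of_compact hC hρ
  by_contra hn
  have hpos : ∀ s : ℂ, 0 < volume (ball s (c * (1 / 2) ^ m * δ / 2) \ e ⁻¹' A) := fun s =>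
    pos_iff_ne_zero.2 fun h0 => hn ⟨_, h.emb.isOpenMap _ isOpen_ball,
      (nonempty_ball.2 hρ).image e, by
        rwa [nul, preimage_sdiff, preimage_image_eq _ h.emb.injective]⟩
  have h3 := ENNReal.Tendsto.const_mul (a := volume (closedBall (0 : ℂ) (2 * δ))) h1
    (Or.inr measure_closedBall_lt_top.ne)
  rw [mul_zero] at h3
  obtain ⟨η, hη, h4⟩ := mem_nhdsGT_iff_exists_Ioo_subset.1
    ((eventually_all_finite ht).2 fun s _ => h3.eventually (gt_mem_nhds (hpos s)))
  obtain ⟨n, y, r, hy, hr, hrη, hd, hR⟩ := H η hη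
  obtain ⟨s, hs, hys⟩ := mem_iUnion₂.1 (hcov hy)
  have hi := fun u (hu : u ∈ ball z r) => h.iter (n := n) (u := u) (hd u hu)
  have hm : MapsTo (fun z => P.eval z / Q.eval z)^[n] (ball z r) (ball y δ) := fun u hu => by
    obtain ⟨v, hv, e1⟩ := hR.1 u hu
    rw [(hi u hu).1] at e1
    exact h.emb.injective e1 ▸ hv
  refine (h4 (show r / 2 ∈ Ioo 0 η from ⟨by linarith, by linarith⟩) s hs).not_ge
    ((measure_mono fun v hv => ?_).trans (Den.area hr hδ (fun u hu => (hi u hu).2) hm hT))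
  obtain ⟨u, hu, e1⟩ := hR.2 (1 / 2) (by norm_num) (by norm_num) v
    (ball_subset_ball' (by linarith [mem_ball'.1 hys]) hv.1)
  refine ⟨u, ⟨subset_toMeasurable _ _ fun h5 => hv.2 ?_,
    ball_subset_closedBall (ball_subset_ball (by linarith) hu)⟩, h.emb.injective ?_⟩
  · exact mem_preimage.2 (e1 ▸ hf.iterate n h5)
  · rw [← e1, (hi u (ball_subset_ball (by linarith) hu)).1]

/-- Orbits that stay near `K` form a null set. -/
theorem thin (h : Ch f e k P Q) (hB : Blow f) {K : Set X} (hK : IsClosed K) (hk : k ∉ K) {N : ℕ}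
    (hN : 0 < N) (hU : ∀ G, IsOpen G → K ⊆ G → ∃ O W, Back f K N O W G) :
    ∃ O W, Back f K N O W univ ∧ nul e {w | ∀ j, f^[j * N] w ∈ O} := by
  obtain ⟨V, hV, hVc, hVK⟩ := exists_mem_nhds_isClosed_subset (hK.isOpen_compl.mem_nhds hk)
  have hKV : K ⊆ Vᶜ := fun x hx h1 => hVK h1 hx
  obtain ⟨O, W, hO, hKO, hW, hd, H⟩ := hU Vᶜ hVc.isOpen_compl hKV
  obtain ⟨O', o1, o2, o3⟩ := normal_exists_closure_subset hK (hO.inter hVc.isOpen_compl)
    (subset_inter hKO hKV)
  have o4 : O' ⊆ O := fun x hx => (o3 (subset_closure hx)).1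
  refine ⟨O', W, ⟨o1, o2, hW, hd, fun j w hw i hi c hc =>
    ⟨(H j w (fun i hi => o4 (hw i hi)) i hi c hc).1, mem_univ c⟩⟩, ?_⟩
  have kV : k ∈ V := mem_of_mem_nhds hV
  have key : ∀ D, IsOpen D → D.Nonempty → ¬ ∀ n, ∀ x ∈ D, f^[n] x ∉ interior V :=
    fun D d1 d2 d3 => h.not_nul isOpen_interior ⟨k, mem_interior_iff_mem_nhds.2 hV⟩ (h.nul_finite
      ((hB D d1 d2).subset fun x hx hx' => by
        obtain ⟨n, u, hu, rfl⟩ := mem_iUnion.1 hx'
        exact d3 n u hu hx))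
  have o5 : closure O' ⊆ range e := fun x hx => h.ex fun e1 => (o3 hx).2 (e1 ▸ kV)
  have hC : IsCompact (e ⁻¹' closure O') :=
    (h.emb.isInducing.isCompact_preimage_iff o5).2 isClosed_closure.isCompact
  obtain ⟨δ, hδ, hδ'⟩ := Puz.delta h.emb.continuous hVc hW hd hC fun y hy => (o3 hy).2
  obtain ⟨c, c0, -, HR⟩ := rel_of_branch
  have hA : IsClosed {x | ∀ n, f^[n] x ∉ interior V} := by
    simp only [ofPred_forall]
    exact isClosed_iInter fun n => isOpen_interior.isClosed_compl.preimage (h.cont.iterate n)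
  rw [nul_iff]
  filter_upwards [den2 h (hA.preimage h.emb.continuous).measurableSet.nullMeasurableSet
    fun x hx n => hx (n + 1)] with z hz hw
  have step : ∀ j, ∃ y ∈ e ⁻¹' closure O', ∃ r : ℝ, 0 < r ∧
      (∀ u ∈ ball z r, ∀ i ≤ j * N, f^[i] (e u) ∉ V) ∧ Rel e f^[j * N] z y r δ c 1 := fun j => by
    obtain ⟨y, hy⟩ := o5 (subset_closure (hw j))
    have hyC : y ∈ e ⁻¹' closure O' := by
      rw [mem_preimage, hy]
      exact subset_closure (hw j)
    have hDW : e '' ball y δ ⊆ {u | (f^[j * N] (e z), u) ∈ W} := by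
      rintro _ ⟨u, hu, rfl⟩
      rw [← hy]
      exact (hδ' y hyC u hu).1
    have H' := fun i hi c hc => H j (e z) (fun i _ => o4 (hw i)) i hi c (pb_mono hDW hc)
    have av : ∀ w ∈ pb f (j * N) 0 (e '' ball y δ) (e z), ∀ i ≤ j * N, f^[i] w ∉ V := by
      intro w hw i hi
      rcases hi.eq_or_lt with rfl | hi'
      · obtain ⟨u, hu, e1⟩ := pb_sub hw
        exact (show e u = f^[j * N] w from e1) ▸ (hδ' y hyC u hu).2
      · exact (H' i hi' _ (pb_map h.cont (Nat.zero_le i) hi hw)).2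
    obtain ⟨φ, d1, rfl, d3⟩ := br2 h hδ hy.symm (fun w hw i hi e1 => av w hw i hi (e1 ▸ kV))
      fun i hi c hc => (H' i hi c hc).1
    obtain ⟨r, r0, hr⟩ := HR h.emb.injective hδ d1 d3
    refine ⟨y, hyC, r, r0, fun u hu => av _ (sub_pb (S := e '' ball (φ y) r)
      ((convex_ball _ _).isPreconnected.image _ h.emb.continuous.continuousOn)
      ⟨_, mem_ball_self r0, rfl⟩ ?_ ⟨u, hu, rfl⟩), hr⟩
    rintro _ ⟨v, hv, rfl⟩
    exact hr.1 v hv
  have le : ∀ n, n ≤ n * N := fun n => Nat.le_mul_of_pos_right n hN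
  obtain ⟨D, d1, d2, d3⟩ := hz (fun n h1 => by
    obtain ⟨y, -, r, r0, h2, -⟩ := step n
    exact h2 z (mem_ball_self r0) n (le n) (interior_subset h1)) ⟨δ, c, 1, _, hδ, c0, hC, fun η hη => by
    by_contra hc
    refine key (e '' ball z η) (h.emb.isOpenMap _ isOpen_ball) ((nonempty_ball.2 hη).image e) ?_
    rintro n _ ⟨u, hu, rfl⟩ h1
    obtain ⟨y, hy, r, r0, h2, h3⟩ := step n
    have h4 : η ≤ r := not_lt.1 fun h4 =>
      hc ⟨_, y, r, hy, r0, h4, fun u hu i hi e1 => h2 u hu i hi (e1 ▸ kV), h3⟩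
    exact h2 u (ball_subset_ball h4 hu) n (le n) (interior_subset h1)⟩
  refine key D d1 d2 fun n x hx h1 => h.not_nul (d1.sdiff hA) ⟨x, hx, fun h2 => h2 n h1⟩ d3

end Pool.Agent.MP_255345_an

end

section

/-! Null sets and measurable sets under a rational map. -/

open Set Filter Topology MeasureTheory Metric Polynomial

namespace Pool.Agent.MP_255345_an.Null

variable {X : Type} [TopologicalSpace X] {f : X → X} {e : ℂ → X} {k : X} {P Q : ℂ[X]}

lemma img {g : ℂ → ℂ} {s : Set ℂ} (hg : DifferentiableOn ℂ g s) (hs : volume s = 0) :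
    volume (g '' s) = 0 :=
  addHaar_image_eq_zero_of_differentiableOn_of_addHaar_eq_zero volume (hg.restrictScalars ℝ) hs

lemma finZ (h : Ch f e k P Q) : {z | f (e z) = k}.Finite :=
  (h.fin k).preimage h.emb.injective.injOn

lemma diff (h : Ch f e k P Q) :
    DifferentiableOn ℂ (fun z => P.eval z / Q.eval z) {z | f (e z) = k}ᶜ :=
  P.differentiable.differentiableOn.div Q.differentiable.differentiableOn fun z hz => (h.rat z hz).1

lemma pre (h : Ch f e k P Q) {T : Set ℂ} (hT : volume T = 0) :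
    volume ((fun z => P.eval z / Q.eval z) ⁻¹' T) = 0 := by
  set g : ℂ → ℂ := fun z => P.eval z / Q.eval z with hg
  have hF : ({z | f (e z) = k} ∪ e ⁻¹' {c | IsCrit f c}).Finite :=
    (finZ h).union (h.crit.preimage h.emb.injective.injOn)
  refine measure_mono_null (subset_diff_union _ _) (measure_union_null ?_ (hF.measure_zero _))
  refine measure_null_of_locally_null _ fun z hz => ?_
  have hz2 := hz.2
  rw [mem_union, not_or] at hz2
  obtain ⟨U, hU, hi⟩ : ∃ U ∈ 𝓝 (e z), InjOn f U := by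
    by_contra hn
    exact hz2.2 fun U hU hi => hn ⟨U, hU, hi⟩
  set V := interior (e ⁻¹' U) ∩ {z | f (e z) = k}ᶜ with hV
  have hVo : IsOpen V := isOpen_interior.inter (finZ h).isClosed.isOpen_compl
  have hzV : z ∈ V :=
    ⟨mem_interior_iff_mem_nhds.2 (h.emb.continuous.continuousAt.preimage_mem_nhds hU), hz2.1⟩
  have hd : DifferentiableOn ℂ g V := (diff h).mono inter_subset_right
  have hj : InjOn g V := fun a ha b hb hab => by
    refine h.emb.injective (hi (interior_subset ha.1 :) (interior_subset hb.1 :) ?_)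
    rw [(h.rat a ha.2).2, (h.rat b hb.2).2]
    exact congrArg e hab
  refine ⟨_, inter_mem_nhdsWithin _ (hVo.mem_nhds hzV), measure_mono_null ?_
    (img ((univ_inv_diff hVo hd hj).mono (inter_subset_right (s := T)))
      (measure_mono_null inter_subset_left hT))⟩
  rintro w ⟨hw, hwV⟩
  exact ⟨g w, ⟨hw.1, w, hwV, rfl⟩, hj.leftInvOn_invFunOn hwV⟩

lemma ae_eq (h : Ch f e k P Q) (S : Set X) :
    (fun z => P.eval z / Q.eval z) ⁻¹' (e ⁻¹' S) =ᵐ[volume] e ⁻¹' (f ⁻¹' S) := by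
  have h0 : ∀ᵐ z, z ∉ {z | f (e z) = k} :=
    measure_eq_zero_iff_ae_notMem.1 ((finZ h).measure_zero volume)
  filter_upwards [h0] with z hz
  change (e (P.eval z / Q.eval z) ∈ S) = (f (e z) ∈ S)
  rw [(h.rat z hz).2]

end Pool.Agent.MP_255345_an.Null

namespace Pool.Agent.MP_255345_an

theorem stNull : StNull := by
  intro X _ f e k P Q h S
  refine ⟨fun hS => ?_, fun hS => ?_, fun hS => ?_⟩
  · refine measure_mono_null ?_ (measure_union_null (h.nul_finite (finite_singleton (f k)))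
      (Null.img ((Null.diff h).mono (inter_subset_right (s := e ⁻¹' S)))
        (measure_mono_null inter_subset_left hS)))
    rintro w ⟨s, hs, hw⟩
    by_cases hk : s = k
    · exact Or.inl (by rw [mem_preimage, ← hw, hk]; rfl)
    · obtain ⟨z, rfl⟩ := h.ex hk
      have hz : f (e z) ≠ k := hw ▸ h.ne w
      exact Or.inr ⟨z, ⟨hs, hz⟩, h.emb.injective ((h.rat z hz).2.symm.trans hw)⟩
  · exact (measure_congr (Null.ae_eq h S)).symm.trans (Null.pre h hS)
  · have hm : Measurable fun z : ℂ => P.eval z / Q.eval z :=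
      P.continuous.measurable.div Q.continuous.measurable
    have hq : Measure.QuasiMeasurePreserving (fun z : ℂ => P.eval z / Q.eval z) volume volume :=
      ⟨hm, Measure.AbsolutelyContinuous.mk fun T hT h0 => by
        rw [Measure.map_apply hm hT]
        exact Null.pre h h0⟩
    exact (NullMeasurableSet.preimage hS hq).congr (Null.ae_eq h S)

end Pool.Agent.MP_255345_an

end

section

/-! Good points are conical; a non-null set of good points gives ergodicity. -/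

open Set Filter Topology MeasureTheory Metric Polynomial TopologicalSpace

namespace Pool.Agent.MP_255345_an

section comb

variable {X : Type} [TopologicalSpace X] {f : X → X} {K : Set X} {x a c : X}

theorem Visits.trans (hf : Continuous f) (h1 : Visits f K x c) (h2 : Visits f K c a) :
    Visits f K x a := fun N => by
  obtain ⟨m, hm⟩ := h2 N
  obtain ⟨n, hn⟩ := h1 (N + m)
  have e1 : piece f K N a = piece f K N (f^[m] c) := connectedComponentIn_eq hm
  refine ⟨m + n, ?_⟩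
  rw [e1, Function.iterate_add_apply]
  exact Puz.map hf hn

theorem Visits.miss (h : Visits f K x a) (n : ℕ) : f^[n] a ∉ K :=
  let ⟨_, hm⟩ := h n
  connectedComponentIn_nonempty_iff.1 ⟨_, hm⟩

theorem visits_self (h : ∀ n, f^[n] x ∉ K) : Visits f K x x := fun N =>
  ⟨0, mem_connectedComponentIn (h N)⟩

theorem piece_open [LocallyConnectedSpace X] (hf : Continuous f) (hK : IsClosed K) (N : ℕ) :
    IsOpen (piece f K N a) :=
  (hK.preimage (hf.iterate N)).isOpen_compl.connectedComponentIn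

theorem om_piece [LocallyConnectedSpace X] (hf : Continuous f) (hK : IsClosed K)
    (h : a ∈ om f x) (ha : ∀ n, f^[n] a ∉ K) (N : ℕ) : ∃ᶠ m in atTop, f^[m] x ∈ piece f K N a :=
  mem_om.1 h _ ((piece_open hf hK N).mem_nhds (mem_connectedComponentIn (ha N)))

open Puz in
theorem Good.of_visits (hf : Continuous f) (hK : MapsTo f K K) (hc : {c | IsCrit f c}.Finite)
    (ha : Good f K a) (hx : Visits f K x a) : Good f K x := by
  classical
  obtain ⟨-, B, hB⟩ := ha
  refine ⟨fun n => ?_, {c | IsCrit f c}.ncard + B, frequently_atTop.2 fun n₀ => ?_⟩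
  · obtain ⟨m, hm⟩ := hx n
    have h1 : f^[n] (f^[m] x) ∉ K := connectedComponentIn_subset (f^[n] ⁻¹' K)ᶜ _ hm
    rw [← Function.iterate_add_apply] at h1
    exact avoid hK h1 (by omega)
  obtain ⟨N, hN, hn₀⟩ := (hB.and_eventually (eventually_ge_atTop n₀)).exists
  obtain ⟨m, hm, hmin⟩ : ∃ m, f^[m] x ∈ piece f K N a ∧ ∀ i < m, f^[i] x ∉ piece f K N a :=
    ⟨Nat.find (hx N), Nat.find_spec (hx N), fun i hi => Nat.find_min (hx N) hi⟩
  refine ⟨m + N, by omega, ?_⟩
  have sub : {i | i < m + N ∧ ∃ c ∈ piece f K (m + N - i) (f^[i] x), IsCrit f c} ⊆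
      {i | i < m ∧ ∃ c ∈ piece f K (m + N - i) (f^[i] x), IsCrit f c} ∪
      (· + m) '' {i | i < N ∧ ∃ c ∈ piece f K (N - i) (f^[i] a), IsCrit f c} := by
    rintro i ⟨hi, c, h3, hcc⟩
    by_cases h4 : i < m
    · exact Or.inl ⟨h4, c, h3, hcc⟩
    obtain ⟨l, rfl⟩ := Nat.exists_eq_add_of_le' (not_lt.1 h4)
    refine Or.inr ⟨l, ⟨by omega, c, ?_, hcc⟩, rfl⟩
    have h5 : f^[m] x ∈ piece f K (N - l + l) a := by
      rwa [show N - l + l = N by omega]
    have e1 : piece f K (N - l) (f^[l] a) = piece f K (N - l) (f^[l] (f^[m] x)) :=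
      connectedComponentIn_eq (map hf h5)
    rw [e1, ← Function.iterate_add_apply, show N - l = m + N - (l + m) by omega]
    exact h3
  have f1 : {i | i < m ∧ ∃ c ∈ piece f K (m + N - i) (f^[i] x), IsCrit f c}.Finite :=
    (finite_lt_nat m).subset fun i hi => hi.1
  have f2 : {i | i < N ∧ ∃ c ∈ piece f K (N - i) (f^[i] a), IsCrit f c}.Finite :=
    (finite_lt_nat N).subset fun i hi => hi.1
  refine (ncard_le_ncard sub (f1.union (f2.image _))).trans ((ncard_union_le _ _).trans ?_)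
  exact add_le_add (first hf hK hc hm hmin) ((ncard_image_le f2).trans hN)

/-- One depth works for all critical points that do not visit. -/
theorem depth (hK : MapsTo f K K) {S : Set X} (hS : S.Finite) {u v : X → X}
    (h : ∀ c ∈ S, ¬ Visits f K (u c) (v c)) :
    ∃ s, ∀ c ∈ S, ∀ d, s ≤ d → ∀ m, f^[m] (u c) ∉ piece f K d (v c) := by
  refine eventually_atTop.1 ((eventually_all_finite hS).2 fun c hc => ?_) |>.imp
    fun s hs c hc d hd => hs d hd c hc
  obtain ⟨s, hs⟩ := not_forall.1 (h c hc)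
  filter_upwards [eventually_ge_atTop s] with d hd m hm
  exact hs ⟨m, Puz.anti hK hd _ hm⟩

theorem good_of (hf : Continuous f) (hK : MapsTo f K K) (hc : {c | IsCrit f c}.Finite)
    (hx : ∀ n, f^[n] x ∉ K) {N : ℕ} (h : ∃ᶠ m in atTop, ∀ i < m, ∀ c, IsCrit f c → Visits f K x c →
      Visits f K (f c) c → c ∉ piece f K (N + m - i) (f^[i] x)) : Good f K x := by
  obtain ⟨s, hs⟩ := depth hK (S := {c | IsCrit f c ∧ ¬ Visits f K x c})
    (hc.subset fun c hc => hc.1) (u := fun _ => x) (v := id) fun c hc => hc.2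
  obtain ⟨s', hs'⟩ := depth hK (S := {c | IsCrit f c ∧ ¬ Visits f K (f c) c})
    (hc.subset fun c hc => hc.1) (u := f) (v := id) fun c hc => hc.2
  refine ⟨hx, s + s' + N + {c | IsCrit f c}.ncard, frequently_atTop.2 fun n₀ => ?_⟩
  obtain ⟨m, hm, h1⟩ := frequently_atTop.1 h n₀
  refine ⟨N + m, by omega, ?_⟩
  have self : ∀ {d y c}, c ∈ piece f K d y → piece f K d y = piece f K d c := fun h =>
    connectedComponentIn_eq h
  set S := {i | i + (s + s' + N) < N + m ∧ ∃ c ∈ piece f K (N + m - i) (f^[i] x), IsCrit f c}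
  have sub : {i | i < N + m ∧ ∃ c ∈ piece f K (N + m - i) (f^[i] x), IsCrit f c} ⊆
      (Finset.Ico (N + m - (s + s' + N)) (N + m) : Set ℕ) ∪ S := by
    rintro i ⟨hi, h3⟩
    rw [Finset.coe_Ico]
    by_cases h4 : i + (s + s' + N) < N + m
    exacts [Or.inr ⟨h4, h3⟩, Or.inl ⟨by omega, hi⟩]
  have key : ∀ i j c, i < j → j + (s + s' + N) < N + m → IsCrit f c →
      c ∈ piece f K (N + m - i) (f^[i] x) → c ∈ piece f K (N + m - j) (f^[j] x) → False := by
    intro i j c hij hj c1 h3 h4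
    by_cases h5 : Visits f K x c
    · refine hs' c ⟨c1, fun h6 => h1 j (by omega) c c1 h5 h6 h4⟩ (N + m - j) (by omega)
        (j - i - 1) ?_
      rw [show N + m - i = N + m - j + (j - i) by omega] at h3
      have h6 := Puz.map hf h3
      rw [iter_iter hij.le, self h4] at h6
      rwa [← Function.iterate_succ_apply, show (j - i - 1).succ = j - i by omega]
    · refine hs c ⟨c1, h5⟩ (N + m - j) (by omega) j ?_
      rw [id, ← self h4]
      exact mem_connectedComponentIn (connectedComponentIn_nonempty_iff.1 ⟨c, h4⟩)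
  have ex : ∀ i, ∃ c, i ∈ S → c ∈ piece f K (N + m - i) (f^[i] x) ∧ IsCrit f c := fun i => by
    by_cases hi : i ∈ S
    · exact hi.2.imp fun c hc _ => hc
    · exact ⟨x, fun h' => (hi h').elim⟩
  choose g hg using ex
  have f1 : S.Finite := (finite_lt_nat (N + m)).subset fun i hi => lt_of_le_of_lt (by omega) hi.1
  refine (ncard_le_ncard sub ((Finset.finite_toSet _).union f1)).trans
    ((ncard_union_le _ _).trans (add_le_add ?_ ?_))
  · rw [ncard_coe_finset, Nat.card_Ico]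
    omega
  refine ncard_le_ncard_of_injOn g (fun i hi => (hg i hi).2) (fun i hi j hj e1 => ?_) hc
  rcases lt_trichotomy i j with h2 | h2 | h2
  · exact (key i j _ h2 hj.1 (hg i hi).2 (hg i hi).1 (e1 ▸ (hg j hj).1)).elim
  · exact h2
  · exact (key j i _ h2 hi.1 (hg j hj).2 (hg j hj).1 (e1 ▸ (hg i hi).1)).elim

/-- The orbit of a point that is not good follows persistently recurrent critical points. -/
theorem comb [LocallyConnectedSpace X] (hf : Continuous f) (hK : IsClosed K) (hfK : MapsTo f K K)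
    (hc : {c | IsCrit f c}.Finite) (hx : ∀ n, f^[n] x ∉ K) (hg : ¬ Good f K x) :
    (∀ a, Visits f K x a → ¬ Good f K a) ∧ (∃ c, Pers f K c ∧ Visits f K x c) ∧
      ∀ a ∈ om f x, (∀ n, f^[n] a ∉ K) → ∃ c, Pers f K c ∧ Visits f K x c ∧ Visits f K c a := by
  have h1 : ∀ a, Visits f K x a → ¬ Good f K a := fun a h1 h2 => hg (h2.of_visits hf hfK hc h1)
  have h2 : ∀ c, IsCrit f c → Visits f K x c → Visits f K (f c) c → Pers f K c :=
    fun c c1 c2 c3 => ⟨c1, c3, fun a h3 => h1 a (c2.trans hf h3)⟩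
  refine ⟨h1, ?_, fun a ha haK => ?_⟩
  · by_contra hn
    exact hg (good_of (N := 0) hf hfK hc hx (Frequently.of_forall fun m i _ c c1 c2 c3 _ =>
      hn ⟨c, h2 c c1 c2 c3, c2⟩))
  by_contra hn
  obtain ⟨N, hN⟩ := depth hfK (S := {c | IsCrit f c ∧ Visits f K x c ∧ Visits f K (f c) c})
    (hc.subset fun c hc => hc.1) (u := id) (v := fun _ => a)
    fun c hc h3 => hn ⟨c, h2 c hc.1 hc.2.1 hc.2.2, hc.2.1, h3⟩
  refine hg (good_of (N := N) hf hfK hc hx ((om_piece hf hK ha haK N).mono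
    fun m hm i hi c c1 c2 c3 h3 => hN c ⟨c1, c2, c3⟩ N le_rfl (m - i) ?_))
  rw [show N + m - i = N + (m - i) by omega] at h3
  have h4 := Puz.map hf h3
  have e1 : piece f K N a = piece f K N (f^[m] x) := connectedComponentIn_eq hm
  rwa [iter_iter hi.le, ← e1] at h4

end comb

variable {X : Type} [Sp X] {f : X → X} {e : ℂ → X} {k : X} {P Q : ℂ[X]} {K : Set X}

open Puz in
theorem puz2 (h : Ch f e k P Q) (hK : IsClosed K) (hk : k ∈ K) (hKK : MapsTo f K K) {N : ℕ}
    {O : Set X} {W : Set (X × X)} (hb : Back f K N O W univ) {x : X} (hg : Good f K x)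
    (hx : ∀ t, ∃ j, f^[j * N] (f^[t] x) ∉ O) :
    ∃ (B : ℕ) (δ : ℝ) (C : Set ℂ), 0 < δ ∧ IsCompact C ∧ ∀ n₀ : ℕ, ∃ n, n₀ ≤ n ∧ ∃ y ∈ C,
      f^[n] x = e y ∧ Disjoint (e '' ball y δ) K ∧ cc f n (e '' ball y δ) x ≤ B := by
  classical
  obtain ⟨o1, o2, hW, hd, hU⟩ := hb
  obtain ⟨-, B, hB⟩ := hg
  have o3 : Oᶜ ⊆ range e := fun z hz => h.ex fun hzk => hz (o2 (hzk ▸ hk))
  have hC : IsCompact (e ⁻¹' Oᶜ) :=
    (h.emb.isInducing.isCompact_preimage_iff o3).2 o1.isClosed_compl.isCompact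
  obtain ⟨δ, hδ, hδ'⟩ := delta h.emb.continuous hK hW hd hC fun y hy hy' => hy (o2 hy')
  refine ⟨B, δ, _, hδ, hC, fun n₀ => ?_⟩
  obtain ⟨t, ht, hn₀⟩ := (hB.and_eventually (eventually_ge_atTop n₀)).exists
  obtain ⟨j, hj, hjmin⟩ : ∃ j, f^[j * N] (f^[t] x) ∉ O ∧ ∀ i < j, f^[i * N] (f^[t] x) ∈ O :=
    ⟨Nat.find (hx t), Nat.find_spec (hx t), fun i hi => not_not.1 (Nat.find_min (hx t) hi)⟩
  obtain ⟨y, hy⟩ := o3 hj
  have hyC : y ∈ e ⁻¹' Oᶜ := by
    rw [mem_preimage, hy]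
    exact hj
  have hDK : e '' ball y δ ⊆ Kᶜ := by
    rintro _ ⟨u, hu, rfl⟩
    exact (hδ' y hyC u hu).2
  have hDW : e '' ball y δ ⊆ {u | (f^[j * N] (f^[t] x), u) ∈ W} := by
    rintro _ ⟨u, hu, rfl⟩
    rw [← hy]
    exact (hδ' y hyC u hu).1
  refine ⟨j * N + t, by omega, y, hyC, by rw [Function.iterate_add_apply, hy],
    disjoint_left.2 fun z hz => hDK hz, (ncard_le_ncard ?_
      ((finite_lt_nat t).subset fun i hi => hi.1)).trans ht⟩
  rintro i ⟨hi, c, hc, hcc⟩
  by_cases h1 : t ≤ i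
  · obtain ⟨l, rfl⟩ := Nat.exists_eq_add_of_le' h1
    rw [pb_shift] at hc
    exact ((hU j _ hjmin l (by omega) c (pb_mono hDW hc)).1 hcc).elim
  have h2 : c ∈ piece f K (j * N + t - i) (f^[i] x) := pb_mono hDK hc
  exact ⟨by omega, c, anti hKK (by omega) _ h2, hcc⟩

theorem main2 (h : Ch f e k P Q) (hB : Blow f) (hK : IsClosed K) (hKi : K.Infinite) (hk : k ∈ K)
    (hf : MapsTo f K K) {N : ℕ} {O : Set X} {W : Set (X × X)} (hb : Back f K N O W univ)
    (hx : ∀ᵐ z, ∀ t, ∃ j, f^[j * N] (f^[t] (e z)) ∉ O) (hG : ∃ᵐ z, Good f K (e z)) : Erg e f := by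
  obtain ⟨b, hbK⟩ : ∃ b, e b ∈ K := by
    obtain ⟨x, hx, hx'⟩ := hKi.exists_notMem_finite (finite_singleton k)
    obtain ⟨b, rfl⟩ := h.ex hx'
    exact ⟨b, hx⟩
  have con : ∀ z, Good f K (e z) → (∀ t, ∃ j, f^[j * N] (f^[t] (e z)) ∉ O) → Con e f K z := by
    intro z hg hz
    obtain ⟨B, δ, C, δ0, hC, H⟩ := puz2 h hK hk hf hb hg hz
    obtain ⟨c, m, c0, -, HI⟩ := stInd stUnb (stOne stUnb stDbl) X f e k P Q K b h hk hbK hf B
    refine ⟨δ, c, m, C, δ0, c0, hC, fun η hη => ?_⟩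
    by_contra hc
    refine hKi ((hB (e '' ball z η) (h.emb.isOpenMap _ isOpen_ball)
      ((nonempty_ball.2 hη).image e)).subset fun x hx hx' => ?_)
    obtain ⟨n₀, _, ⟨u, hu, rfl⟩, rfl⟩ := mem_iUnion.1 hx'
    obtain ⟨n, hn, y, hy, e1, dj, hcc⟩ := H n₀
    obtain ⟨r, r0, hr⟩ := HI n z y δ δ0 e1 dj hcc
    have h1 : η ≤ r := not_lt.1 fun h1 => hc ⟨n, y, r, hy, r0, h1, dj, hr⟩
    exact avoid hf (disjoint_left.1 dj (hr.1 u (ball_subset_ball h1 hu))) hn hx
  have img : ∀ (n : ℕ) S, nul e S → nul e (f^[n] '' S) := fun n S hS => by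
    induction n with
    | zero => simpa using hS
    | succ n ih =>
      rw [Function.iterate_succ', image_comp]
      exact (stNull X f e k P Q h _).1 ih
  have full : ∀ A, msb e A → MapsTo f A A → (∃ᵐ z, Good f K (e z) ∧ e z ∈ A) → nul e Aᶜ := by
    intro A hA hfA hz
    obtain ⟨z, ⟨h1, h2⟩, h3, h4⟩ :=
      (hz.and_eventually ((stDen X f e k P Q K A h hk hf hA hfA).and hx)).exists
    obtain ⟨D, d1, d2, d3⟩ := h3 h2 (con z h1 h4)
    rw [nul_iff]
    filter_upwards [nul_iff.1 (h.nul_finite (hB D d1 d2)),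
      ae_all_iff.2 fun n => nul_iff.1 (img n _ d3)] with w w1 w2 w3
    obtain ⟨n, x, hx, e1⟩ := mem_iUnion.1 (not_notMem.1 w1)
    exact w2 n ⟨x, ⟨hx, fun hxA => w3 (e1 ▸ hfA.iterate n hxA)⟩, e1⟩
  let T : Set X → ℕ → Set X := fun U n => {x | ∀ m, n ≤ m → f^[m] x ∉ U}
  have Tc : ∀ U ∈ countableBasis X, ∀ n, IsClosed (T U n) := fun U hU n => by
    simp only [T, ofPred_forall]
    exact isClosed_iInter fun m => isClosed_iInter fun _ =>
      (isOpen_of_mem_countableBasis hU).isClosed_compl.preimage (h.cont.iterate m)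
  have Tm : ∀ U ∈ countableBasis X, ∀ n, MeasurableSet (e ⁻¹' T U n) := fun U hU n =>
    ((Tc U hU n).preimage h.emb.continuous).measurableSet
  have Tn : ∀ U ∈ countableBasis X, ∀ n, ∀ᵐ z, ¬ (Good f K (e z) ∧ e z ∈ T U n) := by
    intro U hU n
    by_contra hc
    refine h.not_nul (Tc U hU n).isOpen_compl ?_ (full _ (Tm U hU n).nullMeasurableSet
      (fun x hx m hm => ?_) hc)
    · have h1 : U.Infinite := fun h1 => h.not_nul (isOpen_of_mem_countableBasis hU)
        (nonempty_of_mem_countableBasis hU) (h.nul_finite h1)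
      obtain ⟨u, hu, hu'⟩ := h1.exists_notMem_finite (hB _ (h.opn_iter n).isOpen_range ⟨_, k, rfl⟩)
      obtain ⟨j, _, ⟨x, rfl⟩, rfl⟩ := mem_iUnion.1 (not_notMem.1 hu')
      exact ⟨x, fun hx => hx (j + n) (by omega) (by rwa [Function.iterate_add_apply])⟩
    · exact hx (m + 1) (by omega)
  obtain ⟨a, ha⟩ := hG.exists
  have Z := full {x | ∀ U ∈ countableBasis X, ∀ n, x ∉ T U n} ?_ ?_ ?_
  · intro A hA hfA
    refine or_iff_not_imp_left.2 fun h0 => full A hA hfA ?_
    rw [nul_iff] at h0 Z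
    refine ((not_eventually.1 h0).and_eventually Z).mono fun z hz =>
      ⟨ha.of_visits h.cont hf h.crit fun d => (om_piece h.cont hK (mem_om.2 fun V hV => ?_)
        ha.1 d).exists, not_not.1 hz.1⟩
    obtain ⟨U, hU, -, hUV⟩ := (isBasis_countableBasis X).mem_nhds_iff.1 hV
    refine frequently_atTop.2 fun n => ?_
    have := not_not.1 hz.2 U hU n
    simp only [T, mem_ofPred_eq, not_forall, not_not] at this
    obtain ⟨m, hm, h1⟩ := this
    exact ⟨m, hm, hUV h1⟩
  · refine MeasurableSet.nullMeasurableSet ?_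
    simp only [ofPred_forall, preimage_iInter]
    exact MeasurableSet.biInter (countable_countableBasis X) fun U hU =>
      MeasurableSet.iInter fun n => (Tm U hU n).compl
  · intro x hx U hU n h1
    refine hx U hU (n + 1) fun m hm => ?_
    obtain ⟨m, rfl⟩ := Nat.exists_eq_add_of_le' (by omega : 1 ≤ m)
    exact h1 m (by omega)
  · refine (hG.and_eventually ((ae_ball_iff (countable_countableBasis X)).2 fun U hU =>
      ae_all_iff.2 (Tn U hU))).mono fun z hz => ⟨hz.1, fun U hU n h1 => hz.2 U hU n ⟨hz.1, h1⟩⟩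

end Pool.Agent.MP_255345_an

end
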