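import Pool.Agent.MP_255345_an.Defs
import Pool.Agent.MP_255345_an.Koebe

set_option linter.all false

section

/-! Interfaces and basic facts. -/

open Set Filter Topology MeasureTheory Metric Polynomial

namespace Pool.Agent.MP_255345_an

/-- Compact spaces that look like the sphere. -/
class Sp (X : Type) extends TopologicalSpace X where
  cpt : CompactSpace X
  t2 : T2Space X
  lc : LocallyConnectedSpace X
  sc : SecondCountableTopology X

attribute [instance] Sp.cpt Sp.t2 Sp.lc Sp.sc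

section defs

variable {X : Type} [TopologicalSpace X]

/-- `f` is a rational map `P / Q` in the chart `e` that misses exactly the point `k`. -/
structure Ch (f : X → X) (e : ℂ → X) (k : X) (P Q : ℂ[X]) : Prop where
  cont : Continuous f
  opn : IsOpenMap f
  fin : ∀ y, (f ⁻¹' {y}).Finite
  crit : {c | IsCrit f c}.Finite
  emb : IsOpenEmbedding e
  rng : range e = {k}ᶜ
  rat : ∀ z, f (e z) ≠ k → Q.eval z ≠ 0 ∧ f (e z) = e (P.eval z / Q.eval z)

/-- Null sets. -/
def nul (e : ℂ → X) (S : Set X) : Prop := volume (e ⁻¹' S) = 0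

/-- Measurable sets. -/
def msb (e : ℂ → X) (S : Set X) : Prop := NullMeasurableSet (e ⁻¹' S) volume

/-- The forward images of an open set cover all but finitely many points. -/
def Blow (f : X → X) : Prop := ∀ D, IsOpen D → D.Nonempty → (⋃ n, f^[n] '' D)ᶜ.Finite

/-- There is a point of the Fatou set. -/
def Fat (f : X → X) : Prop :=
  ∃ z, ∃ V ∈ 𝓝 z, ∀ w ∈ V, ∀ W : Set (X × X), IsOpen W → (∀ p, (p, p) ∈ W) →
    ∃ U ∈ 𝓝 w, ∀ n : ℕ, ∀ y ∈ U, (f^[n] w, f^[n] y) ∈ W

/-- The pull-back to time `i` of the set `U` at time `n` along the orbit of `x`. -/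
def pb (f : X → X) (n i : ℕ) (U : Set X) (x : X) : Set X :=
  connectedComponentIn (f^[n - i] ⁻¹' U) (f^[i] x)

/-- The number of pull-backs that contain a critical point. -/
noncomputable def cc (f : X → X) (n : ℕ) (U : Set X) (x : X) : ℕ :=
  {i | i < n ∧ ∃ c ∈ pb f n i U x, IsCrit f c}.ncard

/-- Small sets pull back without branching along orbits that stay near `K`. -/
def Uni (f : X → X) (K : Set X) : Prop :=
  ∃ (N : ℕ) (O : Set X) (W : Set (X × X)), 0 < N ∧ IsOpen O ∧ K ⊆ O ∧ IsOpen W ∧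
    (∀ p, (p, p) ∈ W) ∧ ∀ j w, (∀ i < j, f^[i * N] w ∈ O) → ∀ i < j * N,
      ∀ c ∈ pb f (j * N) i {u | (f^[j * N] w, u) ∈ W} w, ¬ IsCrit f c

/-- `F` maps the disc of radius `r` at `z` into the disc of radius `R` at `y`, and concentric
smaller discs over concentric discs of controlled size. -/
def Rel (e : ℂ → X) (F : X → X) (z y : ℂ) (r R c : ℝ) (m : ℕ) : Prop :=
  (∀ u ∈ ball z r, F (e u) ∈ e '' ball y R) ∧
    ∀ τ : ℝ, 0 < τ → τ ≤ 1 → ∀ v ∈ ball y (c * τ ^ m * R), ∃ u ∈ ball z (τ * r), F (e u) = e v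

/-- Conical points. -/
def Con (e : ℂ → X) (f : X → X) (K : Set X) (z : ℂ) : Prop :=
  ∃ (δ c : ℝ) (m : ℕ) (C : Set ℂ), 0 < δ ∧ 0 < c ∧ IsCompact C ∧ ∀ η : ℝ, 0 < η →
    ∃ (n : ℕ) (y : ℂ) (r : ℝ), y ∈ C ∧ 0 < r ∧ r < η ∧ Disjoint (e '' ball y δ) K ∧
      Rel e f^[n] z y r δ c m

/-- Forward invariant sets are null or conull. -/
def Erg (e : ℂ → X) (f : X → X) : Prop := ∀ A, msb e A → MapsTo f A A → nul e A ∨ nul e Aᶜ

/-- Poincare recurrence. -/
def Cons (e : ℂ → X) (f : X → X) : Prop :=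
  ∀ A, msb e A → ∀ᵐ z, e z ∈ A → ∃ n, 0 < n ∧ f^[n] (e z) ∈ A

end defs

/-- The chart that misses the finite point `k`. -/
noncomputable def ek (k u : ℂ) : OnePoint ℂ := if u = 0 then OnePoint.infty else ((k + u⁻¹ : ℂ) :)

/-! ### Statements on the sphere -/

/-- Topology of the sphere. -/
def StTop : Prop := LocallyConnectedSpace (OnePoint ℂ) ∧ SecondCountableTopology (OnePoint ℂ)

/-- Finite fibres and finitely many critical points. -/
def StFin : Prop :=
  ∀ (f : OnePoint ℂ → OnePoint ℂ) (P Q : ℂ[X]), Q ≠ 0 → IsCoprime P Q →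
    2 ≤ max P.natDegree Q.natDegree →
    (∀ z : ℂ, Q.eval z ≠ 0 → f z = ((P.eval z / Q.eval z : ℂ) : OnePoint ℂ)) →
    (∀ y, (f ⁻¹' {y}).Finite) ∧ {c | IsCrit f c}.Finite

/-- The charts `ek k`. -/
def StEmb : Prop :=
  ∀ k : ℂ, IsOpenEmbedding (ek k) ∧ range (ek k) = {(k : OnePoint ℂ)}ᶜ ∧
    (∀ p : OnePoint ℂ → Prop, (∀ᵐ z : ℂ, p (ek k z)) ↔ ∀ᵐ z : ℂ, p z) ∧
    ∀ S : Set (OnePoint ℂ), msb (ek k) S ↔ NullMeasurableSet {z : ℂ | (z : OnePoint ℂ) ∈ S} volume

/-- The map is rational in the charts `ek k`. -/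
def StRat : Prop :=
  ∀ (f : OnePoint ℂ → OnePoint ℂ) (P Q : ℂ[X]), Continuous f → Q ≠ 0 →
    (∀ z : ℂ, Q.eval z ≠ 0 → f z = ((P.eval z / Q.eval z : ℂ) : OnePoint ℂ)) →
    (∀ y, (f ⁻¹' {y}).Finite) → ∀ k : ℂ, ∃ P' Q' : ℂ[X], ∀ z, f (ek k z) ≠ k →
      Q'.eval z ≠ 0 ∧ f (ek k z) = ek k (P'.eval z / Q'.eval z)

/-- The map is open. -/
def StOpen : Prop :=
  ∀ f : OnePoint ℂ → OnePoint ℂ, Continuous f → (∀ y, (f ⁻¹' {y}).Finite) →
    (∀ k : ℂ, ∃ P' Q' : ℂ[X], ∀ z, f (ek k z) ≠ k →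
      Q'.eval z ≠ 0 ∧ f (ek k z) = ek k (P'.eval z / Q'.eval z)) → IsOpenMap f

/-- Expansion gives unbranched pull-backs. -/
def StUni : Prop :=
  ∀ (f : OnePoint ℂ → OnePoint ℂ) (K : Set (OnePoint ℂ)), Continuous f → IsOpenMap f →
    Expanding f K → Uni f K

/-! ### Statements of complex analysis -/

/-- Schottky's theorem. -/
def StSch : Prop :=
  ∃ B : ℝ, ∀ (h : ℂ → ℂ) (c : ℂ) (R : ℝ), 0 < R → DifferentiableOn ℂ h (ball c R) →
    (∀ z ∈ ball c R, h z ≠ 0 ∧ h z ≠ 1) → ‖h c‖ ≤ 1 → ∀ z ∈ ball c (R / 2), ‖h z‖ ≤ B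

/-- Doubling for rational functions away from the poles. -/
def StDbl : Prop :=
  ∀ d : ℕ, ∃ c : ℝ, 0 < c ∧ c ≤ 1 ∧ ∀ (P Q : ℂ[X]) (x : ℂ) (ρ R : ℝ), P.natDegree ≤ d →
    Q.natDegree ≤ d → 0 < ρ → 0 < R → (∀ u ∈ ball x (2 * ρ), Q.eval u ≠ 0) →
    (∃ u ∈ ball x ρ, P.eval u / Q.eval u ∉ ball (P.eval x / Q.eval x) R) →
    ∃ r : ℝ, 0 < r ∧ r ≤ ρ ∧ Rel id (fun u => P.eval u / Q.eval u) x (P.eval x / Q.eval x) r R c d

/-! ### Statements in a chart -/

/-- Null sets and measurable sets. -/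
def StNull : Prop :=
  ∀ (X : Type) [Sp X] (f : X → X) (e : ℂ → X) (k : X) (P Q : ℂ[X]), Ch f e k P Q → ∀ S,
    (nul e S → nul e (f '' S)) ∧ (nul e S → nul e (f ⁻¹' S)) ∧ (msb e S → msb e (f ⁻¹' S))

/-- Montel's theorem. -/
def StMon : Prop :=
  ∀ (X : Type) [Sp X] (f : X → X) (e : ℂ → X) (k : X) (P Q : ℂ[X]), Ch f e k P Q →
    ∀ (D : Set X) (a b : ℂ), IsOpen D → D.Nonempty → a ≠ b →
    (∀ n, ∀ x ∈ D, f^[n] x ≠ k ∧ f^[n] x ≠ e a ∧ f^[n] x ≠ e b) → Fat f

/-- Inverse branches. -/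
def StBr : Prop :=
  ∀ (X : Type) [Sp X] (f : X → X) (e : ℂ → X) (k : X) (P Q : ℂ[X]) (K : Set X), Ch f e k P Q →
    k ∈ K → MapsTo f K K → ∀ (n : ℕ) (z y : ℂ) (R : ℝ), 0 < R → f^[n] (e z) = e y →
    Disjoint (e '' ball y R) K → (∀ i < n, ∀ c ∈ pb f n i (e '' ball y R) (e z), ¬ IsCrit f c) →
    ∃ φ : ℂ → ℂ, DifferentiableOn ℂ φ (ball y R) ∧ φ y = z ∧ ∀ u ∈ ball y R, f^[n] (e (φ u)) = e u

/-- Unbranched pull-backs. -/
def StUnb : Prop :=
  ∃ c : ℝ, 0 < c ∧ c ≤ 1 ∧ ∀ (X : Type) [Sp X] (f : X → X) (e : ℂ → X) (k : X) (P Q : ℂ[X])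
    (K : Set X), Ch f e k P Q → k ∈ K → MapsTo f K K → ∀ (n : ℕ) (z y : ℂ) (R : ℝ), 0 < R →
    f^[n] (e z) = e y → Disjoint (e '' ball y R) K →
    (∀ i < n, ∀ c ∈ pb f n i (e '' ball y R) (e z), ¬ IsCrit f c) →
    ∃ r : ℝ, 0 < r ∧ Rel e f^[n] z y r R c 1

/-- One step. -/
def StOne : Prop :=
  ∀ (X : Type) [Sp X] (f : X → X) (e : ℂ → X) (k : X) (P Q : ℂ[X]) (K : Set X) (b : ℂ),
    Ch f e k P Q → k ∈ K → e b ∈ K → MapsTo f K K → ∃ (c : ℝ) (m : ℕ), 0 < c ∧ c ≤ 1 ∧
    ∀ (x y : ℂ) (R : ℝ), 0 < R → f (e x) = e y → Disjoint (e '' ball y R) K →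
      ∃ r : ℝ, 0 < r ∧ Rel e f x y r R c m

/-- Pull-backs of bounded criticality. -/
def StInd : Prop :=
  ∀ (X : Type) [Sp X] (f : X → X) (e : ℂ → X) (k : X) (P Q : ℂ[X]) (K : Set X) (b : ℂ),
    Ch f e k P Q → k ∈ K → e b ∈ K → MapsTo f K K → ∀ B : ℕ, ∃ (c : ℝ) (m : ℕ), 0 < c ∧ c ≤ 1 ∧
    ∀ (n : ℕ) (z y : ℂ) (R : ℝ), 0 < R → f^[n] (e z) = e y → Disjoint (e '' ball y R) K →
      cc f n (e '' ball y R) (e z) ≤ B → ∃ r : ℝ, 0 < r ∧ Rel e f^[n] z y r R c m

/-- The first entry argument. -/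
def StPuz : Prop :=
  ∀ (X : Type) [Sp X] (f : X → X) (e : ℂ → X) (k : X) (P Q : ℂ[X]) (K : Set X) (a x : X),
    Ch f e k P Q → IsClosed K → k ∈ K → MapsTo f K K → Uni f K → Good f K a → a ∈ om f x →
    ∃ (B : ℕ) (δ : ℝ) (C : Set ℂ), 0 < δ ∧ IsCompact C ∧ ∀ n₀ : ℕ, ∃ n, n₀ ≤ n ∧ ∃ y ∈ C,
      f^[n] x = e y ∧ Disjoint (e '' ball y δ) K ∧ cc f n (e '' ball y δ) x ≤ B

/-- The density point argument. -/
def StDen : Prop :=
  ∀ (X : Type) [Sp X] (f : X → X) (e : ℂ → X) (k : X) (P Q : ℂ[X]) (K A : Set X),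
    Ch f e k P Q → k ∈ K → MapsTo f K K → msb e A → MapsTo f A A →
    ∀ᵐ z, e z ∈ A → Con e f K z → ∃ D, IsOpen D ∧ D.Nonempty ∧ nul e (D \ A)

/-- The main implication. -/
def StMain : Prop :=
  ∀ (X : Type) [Sp X] (f : X → X) (e : ℂ → X) (k : X) (P Q : ℂ[X]) (K : Set X),
    Ch f e k P Q → Blow f → IsClosed K → K.Infinite → k ∈ K → MapsTo f K K → Uni f K →
    (∃ᵐ z, ∃ a ∈ om f (e z), Good f K a) → Erg e f

/-- The soft implications. -/
def StImp : Prop :=
  ∀ (X : Type) [Sp X] (f : X → X) (e : ℂ → X) (k : X) (P Q : ℂ[X]), Ch f e k P Q → Blow f →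
    (Erg e f → Cons e f) ∧ (Cons e f → ∀ᵐ z, om f (e z) = univ)

/-! ### Basic facts -/

section basic

variable {X : Type} [TopologicalSpace X] {f : X → X} {e : ℂ → X} {k : X} {P Q : ℂ[X]}
  {K U : Set X} {x : X} {n i j : ℕ}

omit [TopologicalSpace X] in
theorem avoid (hK : MapsTo f K K) (h : f^[n] x ∉ K) (hi : i ≤ n) : f^[i] x ∉ K := fun hx => h <| by
  obtain ⟨j, rfl⟩ := Nat.exists_eq_add_of_le' hi
  rw [Function.iterate_add_apply]
  exact hK.iterate j hx

theorem Ch.ne (h : Ch f e k P Q) (z : ℂ) : e z ≠ k := by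
  have : e z ∈ range e := mem_range_self z
  rwa [h.rng] at this

theorem Ch.ex (h : Ch f e k P Q) (hx : x ≠ k) : ∃ z, e z = x := by
  have : x ∈ range e := by rwa [h.rng]
  exact this

/-- The iterates in the chart. -/
theorem Ch.iter (h : Ch f e k P Q) {u : ℂ} (hu : ∀ i ≤ n, f^[i] (e u) ≠ k) :
    f^[n] (e u) = e ((fun z => P.eval z / Q.eval z)^[n] u) ∧
      AnalyticAt ℂ (fun z => P.eval z / Q.eval z)^[n] u := by
  induction n with
  | zero => exact ⟨rfl, analyticAt_id⟩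
  | succ n ih =>
    obtain ⟨h1, h2⟩ := ih fun i hi => hu i (by omega)
    have h3 := hu (n + 1) le_rfl
    rw [Function.iterate_succ_apply', h1] at h3
    rw [Function.iterate_succ', Function.iterate_succ']
    refine ⟨by rw [Function.comp_apply, h1, (h.rat _ h3).2]; rfl, AnalyticAt.comp ?_ h2⟩
    exact (P.differentiable.analyticAt _).div (Q.differentiable.analyticAt _) (h.rat _ h3).1

theorem Ch.opn_iter (h : Ch f e k P Q) (n : ℕ) : IsOpenMap f^[n] := by
  induction n with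
  | zero => exact IsOpenMap.id
  | succ n ih => exact ih.comp h.opn

omit [TopologicalSpace X] in
theorem nul_iff {S : Set X} : nul e S ↔ ∀ᵐ z, e z ∉ S := measure_eq_zero_iff_ae_notMem

theorem Ch.nul_finite (h : Ch f e k P Q) {S : Set X} (hS : S.Finite) : nul e S :=
  (hS.preimage h.emb.injective.injOn).measure_zero _

theorem Ch.not_nul [CompactSpace X] (h : Ch f e k P Q) {D : Set X} (hD : IsOpen D)
    (hn : D.Nonempty) : ¬ nul e D := by
  intro h0
  have h1 := ((hD.preimage h.emb.continuous).measure_eq_zero_iff volume).1 h0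
  have h2 : range e = Dᶜ := by
    refine Subset.antisymm (range_subset_iff.2 fun z hz => ?_) fun y hy => h.ex ?_
    · exact (h1.le hz :)
    · obtain ⟨d, hd⟩ := hn
      by_cases hk : d = k
      · rintro rfl
        exact hy (hk ▸ hd)
      · obtain ⟨z, rfl⟩ := h.ex hk
        exact (h1.le hd).elim
  have h3 : IsCompact (e '' univ) := by
    rw [image_univ, h2]
    exact hD.isClosed_compl.isCompact
  exact noncompact_univ ℂ (h.emb.isInducing.isCompact_iff.2 h3)

theorem mem_om {a : X} : a ∈ om f x ↔ ∀ V ∈ 𝓝 a, ∃ᶠ n in atTop, f^[n] x ∈ V := by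
  rw [om, mem_omegaLimit_singleton_iff_mapClusterPt, mapClusterPt_iff_frequently]

omit [TopologicalSpace X] in
theorem iter_iter (hi : i ≤ n) : f^[n - i] (f^[i] x) = f^[n] x := by
  rw [← Function.iterate_add_apply, Nat.sub_add_cancel hi]

theorem mem_pb (h : f^[n] x ∈ U) (hi : i ≤ n) : f^[i] x ∈ pb f n i U x :=
  mem_connectedComponentIn (by rwa [mem_preimage, iter_iter hi])

theorem pb_sub {y : X} (h : y ∈ pb f n i U x) : f^[n - i] y ∈ U :=
  connectedComponentIn_subset (f^[n - i] ⁻¹' U) _ h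

theorem sub_pb {S : Set X} (hS : IsPreconnected S) (hx : f^[i] x ∈ S)
    (h : ∀ y ∈ S, f^[n - i] y ∈ U) : S ⊆ pb f n i U x :=
  hS.subset_connectedComponentIn hx h

theorem pb_conn : IsPreconnected (pb f n i U x) := isPreconnected_connectedComponentIn

theorem pb_open [LocallyConnectedSpace X] (hf : Continuous f) (hU : IsOpen U) :
    IsOpen (pb f n i U x) :=
  (hU.preimage (hf.iterate _)).connectedComponentIn

theorem pb_map (hf : Continuous f) (hij : i ≤ j) (hj : j ≤ n) {y : X} (h : y ∈ pb f n i U x) :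
    f^[j - i] y ∈ pb f n j U x := by
  have hx : f^[i] x ∈ pb f n i U x :=
    mem_connectedComponentIn (connectedComponentIn_nonempty_iff.1 ⟨y, h⟩)
  refine sub_pb (pb_conn.image _ (hf.iterate (j - i)).continuousOn) ⟨_, hx, iter_iter hij⟩ ?_
    ⟨y, h, rfl⟩
  rintro _ ⟨w, hw, rfl⟩
  rw [← Function.iterate_add_apply, show n - j + (j - i) = n - i by omega]
  exact pb_sub hw

theorem pb_shift (t : ℕ) : pb f (n + t) (i + t) U x = pb f n i U (f^[t] x) := by
  rw [pb, pb, Nat.add_sub_add_right, Function.iterate_add_apply]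

theorem pb_mono {V : Set X} (h : U ⊆ V) : pb f n i U x ⊆ pb f n i V x :=
  connectedComponentIn_mono _ (preimage_mono h)

theorem mem_pb_of_closure {y : X} (h : y ∈ closure (pb f n i U x)) (hy : f^[n - i] y ∈ U) :
    y ∈ pb f n i U x := by
  obtain ⟨w, hw⟩ := closure_nonempty_iff.1 ⟨y, h⟩
  refine sub_pb (S := insert y (pb f n i U x)) (pb_conn.subset_closure (subset_insert _ _)
    (insert_subset h subset_closure)) (Or.inr (mem_connectedComponentIn
      (connectedComponentIn_nonempty_iff.1 ⟨w, hw⟩))) ?_ (mem_insert _ _)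
  rintro v (rfl | hv)
  exacts [hy, pb_sub hv]

/-- Pull-backs map onto pull-backs. -/
theorem pb_surj [CompactSpace X] [T2Space X] [LocallyConnectedSpace X] (hf : Continuous f)
    (ho : IsOpenMap f^[j - i]) (hU : IsOpen U) (hij : i ≤ j) (hj : j ≤ n) {v : X}
    (h : v ∈ pb f n j U x) : ∃ u ∈ pb f n i U x, f^[j - i] u = v := by
  have hx : f^[n] x ∈ U := by
    have := pb_sub (mem_connectedComponentIn (connectedComponentIn_nonempty_iff.1 ⟨v, h⟩) :
      f^[j] x ∈ pb f n j U x)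
    rwa [iter_iter hj] at this
  refine pb_conn.subset_of_closure_inter_subset (ho _ (pb_open (n := n) (i := i) (x := x) hf hU))
    ⟨_, mem_pb hx hj, _, mem_pb hx (hij.trans hj), iter_iter hij⟩ ?_ h
  rintro w ⟨h1, h2⟩
  obtain ⟨u, hu, rfl⟩ := (hf.iterate (j - i)).isClosedMap.closure_image_subset _ h1
  refine ⟨u, mem_pb_of_closure hu ?_, rfl⟩
  have := pb_sub h2
  rwa [← Function.iterate_add_apply, show n - j + (j - i) = n - i by omega] at this

omit [TopologicalSpace X] in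
theorem Rel.mono {F : X → X} {z y : ℂ} {r R c c' : ℝ} {m m' : ℕ} (h : Rel e F z y r R c m)
    (hR : 0 < R) (h0 : 0 < c') (hc : c' ≤ c) (hm : m ≤ m') : Rel e F z y r R c' m' := by
  refine ⟨h.1, fun τ t0 t1 v hv => h.2 τ t0 t1 v (ball_subset_ball ?_ hv)⟩
  have := pow_le_pow_of_le_one t0.le t1 hm
  have := h0.trans_le hc
  gcongr

omit [TopologicalSpace X] in
theorem Rel.shrink {F : X → X} {z y : ℂ} {r R c θ : ℝ} {m : ℕ} (h : Rel e F z y r (θ * R) c m)
    (hR : 0 < R) (hθ : θ ≤ 1) : Rel e F z y r R (c * θ) m :=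
  ⟨fun u hu => image_mono (ball_subset_ball (by nlinarith)) (h.1 u hu),
    fun τ t0 t1 v hv => h.2 τ t0 t1 v (by convert hv using 2; ring)⟩

omit [TopologicalSpace X] in
theorem Rel.comp {F G : X → X} {z y w : ℂ} {r R S c c' : ℝ} {m m' : ℕ} (h : Rel e F z y r R c m)
    (h' : Rel e G y w R S c' m') (h0 : 0 < c) (h1 : c ≤ 1) :
    Rel e (G ∘ F) z w r S (c' * c ^ m') (m * m') := by
  refine ⟨fun u hu => ?_, fun τ t0 t1 v hv => ?_⟩
  · obtain ⟨v, hv, e1⟩ := h.1 u hu
    rw [Function.comp_apply, ← e1]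
    exact h'.1 v hv
  · obtain ⟨u, hu, e1⟩ := h'.2 (c * τ ^ m) (by positivity)
      (mul_le_one₀ h1 (by positivity) (pow_le_one₀ t0.le t1)) v (by convert hv using 2; ring)
    obtain ⟨s, hs, e2⟩ := h.2 τ t0 t1 u hu
    exact ⟨s, hs, by rw [Function.comp_apply, e2, e1]⟩

end basic

end Pool.Agent.MP_255345_an

end

section

/-! Inverse branches. -/

open Set Filter Topology Metric Polynomial

namespace Pool.Agent.MP_255345_an

namespace Br

theorem loc_inj {X : Type} [TopologicalSpace X] {f : X → X} (hf : Continuous f) (u : X) (n : ℕ)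
    (h : ∀ i < n, ¬ IsCrit f (f^[i] u)) : ∃ V ∈ 𝓝 u, InjOn f^[n] V := by
  induction n with
  | zero => exact ⟨univ, univ_mem, fun _ _ _ _ h => h⟩
  | succ n ih =>
    obtain ⟨V, hV, h1⟩ := ih fun i hi => h i (by omega)
    have h2 := h n (by omega)
    unfold IsCrit at h2
    push Not at h2
    obtain ⟨W, hW, h3⟩ := h2
    refine ⟨V ∩ f^[n] ⁻¹' W, inter_mem hV ((hf.iterate n).continuousAt hW), ?_⟩
    intro a ha b hb hab
    rw [Function.iterate_succ_apply', Function.iterate_succ_apply'] at hab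
    exact h1 ha.1 hb.1 (h3 ha.2 hb.2 hab)

theorem lift {X A : Type} [TopologicalSpace X] [CompactSpace X] [T2Space X] [TopologicalSpace A]
    [SimplyConnectedSpace A] [LocallyPathConnectedSpace A] {F : X → X} (hc : Continuous F)
    (ho : IsOpenMap F) {Y D : Set X} (hY : IsOpen Y) (hcl : ∀ w ∈ closure Y, F w ∈ D → w ∈ Y)
    (hi : ∀ w ∈ Y, ∃ V ∈ 𝓝 w, InjOn F V) (g : C(A, X)) (hg : ∀ a, g a ∈ D) (a₀ : A) {x₀ : X}
    (hx : x₀ ∈ Y) (h0 : F x₀ = g a₀) :
    ∃ G : C(A, X), G a₀ = x₀ ∧ ∀ a, G a ∈ Y ∧ F (G a) = g a := by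
  have : CompactSpace (closure Y) := isCompact_iff_compactSpace.1 isClosed_closure.isCompact
  let p : closure Y → X := fun w => F w
  have hp : Continuous p := hc.comp continuous_subtype_val
  have hloc : IsLocalHomeomorphOn p (p ⁻¹' D) := by
    rw [isLocalHomeomorphOn_iff_isOpenEmbedding_restrict]
    intro w hw
    have hwY : (w : X) ∈ Y := hcl w w.2 hw
    obtain ⟨V, hV, hinj⟩ := hi w hwY
    have hO : IsOpen (interior V ∩ Y) := isOpen_interior.inter hY
    refine ⟨Subtype.val ⁻¹' (interior V ∩ Y), (hO.preimage continuous_subtype_val).mem_nhds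
      ⟨mem_interior_iff_mem_nhds.2 hV, hwY⟩, ?_⟩
    have hj : IsOpenEmbedding
        fun t : (Subtype.val ⁻¹' (interior V ∩ Y) : Set (closure Y)) => ((t : closure Y) : X) := by
      refine ⟨IsEmbedding.subtypeVal.comp IsEmbedding.subtypeVal, ?_⟩
      have h1 : range (fun t : (Subtype.val ⁻¹' (interior V ∩ Y) : Set (closure Y)) =>
          ((t : closure Y) : X)) = interior V ∩ Y := by
        ext x
        constructor
        · rintro ⟨t, rfl⟩
          exact t.2
        · intro hx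
          exact ⟨⟨⟨x, subset_closure hx.2⟩, hx⟩, rfl⟩
      rw [h1]
      exact hO
    refine IsOpenEmbedding.of_continuous_injective_isOpenMap (hc.comp hj.continuous)
      (fun s t hst => hj.injective ?_) (ho.comp hj.isOpenMap)
    exact hinj (interior_subset s.2.1) (interior_subset t.2.1) hst
  obtain ⟨G, ⟨h1, h2⟩, -⟩ := (IsCoveringMapOn.of_isLocalHomeomorphOn hp
    hloc).existsUnique_continuousMap_lifts g (a₀ := a₀) (e₀ := ⟨x₀, subset_closure hx⟩) h0 hg
  refine ⟨⟨fun a => (G a : X), continuous_subtype_val.comp G.continuous⟩, ?_, fun a => ?_⟩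
  · exact congrArg Subtype.val h1
  · have h3 : F (G a : X) = g a := congrFun h2 a
    exact ⟨hcl _ (G a).2 (h3 ▸ hg a), h3⟩

end Br

theorem stBr : StBr := by
  classical
  intro X _ f e k P Q K h hk hK n z y R hR hz hD hcr
  have hDo : IsOpen (e '' ball y R) := h.emb.isOpenMap _ isOpen_ball
  have hYo : IsOpen (pb f n 0 (e '' ball y R) (e z)) := pb_open h.cont hDo
  have hinj : ∀ w ∈ pb f n 0 (e '' ball y R) (e z), ∃ V ∈ 𝓝 w, InjOn f^[n] V := fun w hw =>
    Br.loc_inj h.cont w n fun i hi => hcr i hi _ (pb_map h.cont (Nat.zero_le i) hi.le hw)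
  have hav : ∀ w ∈ pb f n 0 (e '' ball y R) (e z), ∀ i ≤ n, f^[i] w ≠ k := by
    intro w hw i hi h1
    exact avoid hK (fun h2 => disjoint_left.1 hD (pb_sub hw) h2) hi (h1 ▸ hk)
  have : ContractibleSpace (ball y R) := (convex_ball y R).contractibleSpace ⟨y, mem_ball_self hR⟩
  have : LocallyPathConnectedSpace (ball y R) := isOpen_ball.locallyPathConnectedSpace
  obtain ⟨G, hG0, hG⟩ := Br.lift (A := ball y R) (h.cont.iterate n) (h.opn_iter n) hYo
    (D := e '' ball y R) (fun w hw h1 => mem_pb_of_closure hw h1) hinj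
    ⟨fun a => e a, h.emb.continuous.comp continuous_subtype_val⟩ (fun a => ⟨a, a.2, rfl⟩)
    ⟨y, mem_ball_self hR⟩ (x₀ := e z)
    (mem_pb (i := 0) (by rw [hz]; exact ⟨y, mem_ball_self hR, rfl⟩) (Nat.zero_le n)) hz
  choose ψ hψ using fun a => h.ex (hav _ (hG a).1 0 (Nat.zero_le n))
  have hψ' : ∀ a, e (ψ a) = G a := hψ
  have hψc : Continuous ψ := by
    rw [h.emb.isInducing.continuous_iff]
    exact G.continuous.congr fun a => (hψ' a).symm
  let φ : ℂ → ℂ := fun u => if hu : u ∈ ball y R then ψ ⟨u, hu⟩ else 0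
  have hφ : ∀ u (hu : u ∈ ball y R), φ u = ψ ⟨u, hu⟩ := fun u hu => dif_pos hu
  have hφc : ContinuousOn φ (ball y R) := by
    rw [continuousOn_iff_continuous_domRestrict]
    exact hψc.congr fun a => (hφ a a.2).symm
  have hφY : ∀ u ∈ ball y R, e (φ u) ∈ pb f n 0 (e '' ball y R) (e z) := fun u hu => by
    rw [hφ u hu, hψ']
    exact (hG _).1
  have hφe : ∀ u ∈ ball y R, f^[n] (e (φ u)) = e u := fun u hu => by
    rw [hφ u hu, hψ']
    exact (hG _).2
  refine ⟨φ, fun u hu => ?_, h.emb.injective ?_, hφe⟩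
  · obtain ⟨V, hV, hVi⟩ := hinj _ (hφY u hu)
    have hU : IsOpen (e ⁻¹' (interior V ∩ pb f n 0 (e '' ball y R) (e z))) :=
      (isOpen_interior.inter hYo).preimage h.emb.continuous
    have hd := univ_deriv_ne_zero (j := (fun z => P.eval z / Q.eval z)^[n]) hU
      (fun t ht => (h.iter (hav _ ht.2)).2.differentiableAt.differentiableWithinAt)
      (fun s hs t ht hst => h.emb.injective (hVi (interior_subset hs.1) (interior_subset ht.1) (by
        rw [(h.iter (hav _ hs.2)).1, (h.iter (hav _ ht.2)).1, hst])))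
      (z := φ u) ⟨mem_interior_iff_mem_nhds.2 hV, hφY u hu⟩
    refine (HasDerivAt.of_local_left_inverse (hφc.continuousAt (isOpen_ball.mem_nhds hu))
      (h.iter (hav _ (hφY u hu))).2.differentiableAt.hasDerivAt hd
      ?_).differentiableAt.differentiableWithinAt
    filter_upwards [isOpen_ball.mem_nhds hu] with t ht
    exact h.emb.injective ((h.iter (hav _ (hφY t ht))).1.symm.trans (hφe t ht))
  · rw [hφ y (mem_ball_self hR), hψ', hG0]

end Pool.Agent.MP_255345_an

end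

section

/-! Pull-backs of bounded criticality. -/

open Set Filter Topology MeasureTheory Metric Polynomial

namespace Pool.Agent.MP_255345_an

namespace Ind

theorem fin_idx (n : ℕ) (p : ℕ → Prop) : {i | i < n ∧ p i}.Finite :=
  (finite_Iio n).subset fun _ h => h.1

theorem disj {X : Type} {e : ℂ → X} {f : X → X} {K : Set X} (hK : MapsTo f K K) {n : ℕ}
    {z y : ℂ} {r R : ℝ} (h : ∀ u ∈ ball z r, f^[n] (e u) ∈ e '' ball y R)
    (hd : Disjoint (e '' ball y R) K) : Disjoint (e '' ball z r) K := by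
  rw [Set.disjoint_left] at hd ⊢
  rintro _ ⟨u, hu, rfl⟩ hk
  exact hd (h u hu) (hK.iterate n hk)

end Ind

theorem stInd (hU : StUnb) (hO : StOne) : StInd := by
  intro X _ f e k P Q K b hC hk hb hK B
  obtain ⟨cU, u0, u1, HU⟩ := hU
  obtain ⟨c1, m1, a0, a1, HO⟩ := hO X f e k P Q K b hC hk hb hK
  have HU' := HU X f e k P Q K hC hk hK
  induction B with
  | zero =>
    refine ⟨cU, 1, u0, u1, fun n z y R hR hy hd hc => HU' n z y R hR hy hd fun i hi c h1 h2 => ?_⟩
    have h3 := (ncard_eq_zero (Ind.fin_idx n _)).1 (Nat.le_zero.1 hc)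
    exact (h3.le ⟨hi, c, h1, h2⟩ :)
  | succ B ih =>
    obtain ⟨c, m, c0, c1', ih⟩ := ih
    have p0 : 0 < c1 * c ^ m1 := by positivity
    have p1 : c1 * c ^ m1 ≤ 1 := mul_le_one₀ a1 (by positivity) (pow_le_one₀ c0.le c1')
    have p2 : cU * (c1 * c ^ m1) ≤ cU := mul_le_of_le_one_right u0.le p1
    refine ⟨cU * (c1 * c ^ m1), m * m1 + 1, by positivity, p2.trans u1,
      fun n z y R hR hy hd hc => ?_⟩
    rcases Set.eq_empty_or_nonempty
      {i | i < n ∧ ∃ c ∈ pb f n i (e '' ball y R) (e z), IsCrit f c} with h0 | h0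
    · obtain ⟨r, hr, h⟩ := HU' n z y R hR hy hd fun i hi c h1 h2 => (h0.le ⟨hi, c, h1, h2⟩ :)
      exact ⟨r, hr, h.mono hR (by positivity) p2 (by omega)⟩
    obtain ⟨i, hi, hmax⟩ := Set.exists_max_image _ id (Ind.fin_idx n _) h0
    obtain ⟨t, rfl⟩ : ∃ t, n = t + (i + 1) := ⟨n - (i + 1), by have := hi.1; omega⟩
    have hyU : f^[t + (i + 1)] (e z) ∈ e '' ball y R := ⟨y, mem_ball_self hR, hy.symm⟩
    have hn : f^[t + (i + 1)] (e z) ∉ K := Set.disjoint_left.1 hd hyU
    obtain ⟨zi, hzi⟩ := hC.ex (x := f^[i] (e z)) fun h => avoid hK hn (by omega) (h ▸ hk)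
    obtain ⟨zj, hzj⟩ := hC.ex (x := f^[i + 1] (e z)) fun h => avoid hK hn (by omega) (h ▸ hk)
    obtain ⟨R1, r1, h2⟩ := HU' t zj y R hR (by rw [hzj, ← Function.iterate_add_apply, hy]) hd
      fun j hj c h1 h2 => by
        rw [hzj, ← pb_shift] at h1
        have := hmax (j + (i + 1)) ⟨by omega, c, h1, h2⟩
        simp only [id] at this
        omega
    have d1 := Ind.disj hK h2.1 hd
    obtain ⟨R2, r2, h1⟩ := HO zi zj R1 r1 (by rw [hzi, hzj, Function.iterate_succ_apply']) d1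
    have d2 := Ind.disj (n := 1) hK h1.1 d1
    have hin : ∀ u ∈ e '' ball zi R2, f^[t + 1] u ∈ e '' ball y R := by
      rintro _ ⟨u, hu, rfl⟩
      obtain ⟨v, hv, e1⟩ := h1.1 u hu
      rw [Function.iterate_succ_apply, ← e1]
      exact h2.1 v hv
    have hiU : f^[i] (e z) ∈ e '' ball zi R2 := ⟨zi, mem_ball_self r2, hzi⟩
    have hsub : ∀ j < i, pb f i j (e '' ball zi R2) (e z) ⊆
        pb f (t + (i + 1)) j (e '' ball y R) (e z) := fun j hj =>
      sub_pb pb_conn (mem_pb hiU hj.le) fun w hw => by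
        rw [show t + (i + 1) - j = t + 1 + (i - j) by omega, Function.iterate_add_apply]
        exact hin _ (pb_sub hw)
    obtain ⟨r, hr, h0⟩ := ih i z zi R2 r2 hzi.symm d2 (by
      refine Nat.le_of_lt_succ (lt_of_lt_of_le (ncard_lt_ncard ⟨?_, fun h => ?_⟩
        (Ind.fin_idx _ _)) hc)
      · rintro j ⟨hj, c, h1, h2⟩
        exact ⟨by omega, c, hsub j hj h1, h2⟩
      · exact lt_irrefl i (h hi).1)
    have h3 := (h0.comp h1 c0 c1').comp h2 p0 p1
    have h4 : f^[t] ∘ f ∘ f^[i] = f^[t + (i + 1)] := by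
      rw [Function.iterate_add, Function.iterate_succ']
    rw [h4] at h3
    exact ⟨r, hr, h3.mono hR (by positivity) (by rw [pow_one]) (by omega)⟩

end Pool.Agent.MP_255345_an

end

section

/-! Finite fibres and finitely many critical points. -/

open Set Filter Topology Polynomial

namespace Pool.Agent.MP_255345_an

namespace Fin

theorem fin_of {R : ℂ[X]} (hR : R ≠ 0) {S : Set (OnePoint ℂ)}
    (h : ∀ z : ℂ, (z : OnePoint ℂ) ∈ S → R.eval z = 0) : S.Finite := by
  refine (((R.roots.toFinset.finite_toSet).image (fun z : ℂ => (z : OnePoint ℂ))).insert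
    OnePoint.infty).subset fun y hy => ?_
  induction y using OnePoint.rec with
  | infty => exact mem_insert _ _
  | coe z =>
    exact mem_insert_of_mem _ ⟨z, by simpa [hR] using h z hy, rfl⟩

theorem deg_of {R : ℂ[X]} (h : R ∣ derivative R) : R.natDegree = 0 := by
  by_contra hc
  have h1 : derivative R ≠ 0 := fun e => hc (derivative_eq_zero.1 e)
  exact absurd (natDegree_le_of_dvd h h1) (not_le.2 (natDegree_derivative_lt hc))

end Fin

theorem stFin : StFin := by
  intro f P Q hQ hc hd hf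
  refine ⟨fun y => ?_, ?_⟩
  · induction y using OnePoint.rec with
    | infty =>
      refine Fin.fin_of hQ fun z hz => ?_
      by_contra h
      exact OnePoint.coe_ne_infty _ ((hf z h).symm.trans hz)
    | coe w =>
      have h1 : P - C w * Q ≠ 0 := fun e => by
        have e1 : P = C w * Q := sub_eq_zero.1 e
        have e2 := natDegree_eq_zero_of_isUnit (hc.symm.isUnit_of_dvd (Dvd.intro_left _ e1.symm))
        have e3 : P.natDegree ≤ Q.natDegree := e1 ▸ natDegree_C_mul_le w Q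
        omega
      refine Fin.fin_of (mul_ne_zero hQ h1) fun z hz => ?_
      by_cases h : Q.eval z = 0
      · simp [h]
      · have e1 : P.eval z / Q.eval z = w := OnePoint.coe_injective ((hf z h).symm.trans hz)
        rw [div_eq_iff h] at e1
        simp [e1]
  · have h1 : derivative P * Q - P * derivative Q ≠ 0 := fun e => by
      have e1 := sub_eq_zero.1 e
      have e2 := Fin.deg_of (hc.dvd_of_dvd_mul_right (Dvd.intro _ e1.symm))
      have e3 := Fin.deg_of (hc.symm.dvd_of_dvd_mul_left (Dvd.intro_left _ e1))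
      omega
    refine Fin.fin_of (mul_ne_zero hQ h1) fun z hz => ?_
    by_contra h
    rw [eval_mul, mul_eq_zero, not_or, eval_sub, eval_mul, eval_mul] at h
    have h2 := (P.hasStrictDerivAt z).div (Q.hasStrictDerivAt z) h.1
    have h3 := h2.eventually_left_inverse (div_ne_zero h.2 (pow_ne_zero 2 h.1))
    have h4 : ∀ᶠ u in 𝓝 z, Q.eval u ≠ 0 := Q.continuous.continuousAt.eventually_ne h.1
    refine hz _ (OnePoint.isOpenEmbedding_coe.isOpenMap.image_mem_nhds (h3.and h4)) ?_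
    rintro _ ⟨a, ⟨a1, a2⟩, rfl⟩ _ ⟨b, ⟨b1, b2⟩, rfl⟩ e
    rw [hf a a2, hf b b2] at e
    rw [← a1, ← b1]
    exact congrArg _ (congrArg _ (OnePoint.coe_injective e))

end Pool.Agent.MP_255345_an

end

section

/-! Ergodic implies conservative, and conservative implies that typical orbits are dense. -/

open Set Filter Topology MeasureTheory Polynomial

namespace Pool.Agent.MP_255345_an

namespace Imp

variable {X : Type} {e : ℂ → X} {f : X → X} {S T : Set X}

theorem nul_mono (h : S ⊆ T) (hT : nul e T) : nul e S := measure_mono_null (preimage_mono h) hT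

theorem nul_union (hS : nul e S) (hT : nul e T) : nul e (S ∪ T) := measure_union_null hS hT

theorem nul_iUnion {A : ℕ → Set X} (h : ∀ n, nul e (A n)) : nul e (⋃ n, A n) := by
  rw [nul, preimage_iUnion]
  exact measure_iUnion_null h

theorem msb_iInter {A : ℕ → Set X} (h : ∀ n, msb e (A n)) : msb e (⋂ n, A n) := by
  rw [msb, preimage_iInter]
  exact NullMeasurableSet.iInter h

theorem pre_iter {p : Set X → Prop} (h : ∀ S, p S → p (f ⁻¹' S)) (n : ℕ) (hS : p S) :
    p (f^[n] ⁻¹' S) := by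
  induction n with
  | zero => exact hS
  | succ n ih => exact h _ ih

theorem im_iter {p : Set X → Prop} (h : ∀ S, p S → p (f '' S)) (n : ℕ) (hS : p S) :
    p (f^[n] '' S) := by
  induction n with
  | zero => simpa using hS
  | succ n ih =>
    rw [Function.iterate_succ', image_comp]
    exact h _ ih

end Imp

open Pool.Agent.MP_255345_an.Imp in
theorem stImp (hN : StNull) : StImp := by
  intro X _ f e k P Q h hB
  have n1 : ∀ S, nul e S → nul e (f '' S) := fun S => (hN X f e k P Q h S).1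
  have n2 : ∀ S, nul e S → nul e (f ⁻¹' S) := fun S => (hN X f e k P Q h S).2.1
  have n3 : ∀ S, msb e S → msb e (f ⁻¹' S) := fun S => (hN X f e k P Q h S).2.2
  refine ⟨fun hE A hA => ?_, fun hC => ?_⟩
  · set W : Set X := A ∩ ⋂ n, f^[n + 1] ⁻¹' Aᶜ with hW
    have w1 : msb e W := hA.inter (msb_iInter fun n => pre_iter n3 (n + 1) (S := Aᶜ) hA.compl)
    have w2 : msb e (⋂ n, f^[n] ⁻¹' Wᶜ) := msb_iInter fun n => pre_iter n3 n (S := Wᶜ) w1.compl
    have w3 : nul e W := by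
      rcases hE _ w2 (fun x hx => mem_iInter.2 fun n => mem_iInter.1 hx (n + 1)) with h1 | h1
      · refine nul_mono ?_ (n2 _ h1)
        exact fun x hx => mem_iInter.2 fun n hn => mem_iInter.1 hx.2 n hn.1
      · refine nul_mono ?_ h1
        exact fun x hx hy => mem_iInter.1 hy 0 hx
    filter_upwards [nul_iff.1 w3] with z hz hzA
    by_contra hc
    exact hz ⟨hzA, mem_iInter.2 fun n hn => hc ⟨n + 1, n.succ_pos, hn⟩⟩
  · have key : ∀ U : Set X, IsOpen U → U.Nonempty →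
        ∀ᵐ z, ∃ᶠ n in atTop, f^[n] (e z) ∈ U := by
      intro U hU hne
      set T : Set X := ⋂ n, f^[n] ⁻¹' Uᶜ with hT
      have t1 : IsClosed T :=
        isClosed_iInter fun n => hU.isClosed_compl.preimage (h.cont.iterate n)
      have t2 : msb e T := (t1.preimage h.emb.continuous).measurableSet.nullMeasurableSet
      have t3 : MapsTo f T T := fun x hx => mem_iInter.2 fun n => mem_iInter.1 hx (n + 1)
      have t4 : nul e (f ⁻¹' T \ T) := by
        refine nul_iff.2 ?_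
        filter_upwards [hC (f ⁻¹' T \ T) ((n3 T t2).diff t2)] with z hz hm
        obtain ⟨n, hn, h1⟩ := hz hm
        obtain ⟨m, rfl⟩ := Nat.exists_eq_succ_of_ne_zero hn.ne'
        exact h1.2 (t3.iterate m hm.1)
      have t5 : ∀ n, nul e (f^[n] ⁻¹' T \ T) := by
        intro n
        induction n with
        | zero => exact nul_mono (fun x hx => (hx.2 hx.1).elim) t4
        | succ n ih =>
          refine nul_mono (fun x hx => ?_) (nul_union (pre_iter n2 n t4) ih)
          by_cases hm : f^[n] x ∈ T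
          · exact Or.inr ⟨hm, hx.2⟩
          · refine Or.inl ⟨?_, hm⟩
            have := hx.1
            rwa [mem_preimage, Function.iterate_succ_apply'] at this
      have t6 : nul e T := by
        refine nul_mono (fun x hx => ?_) (nul_union
          (nul_iUnion fun n => im_iter n1 n (t5 n)) (h.nul_finite (hB U hU hne)))
        by_cases hm : x ∈ ⋃ n, f^[n] '' U
        · obtain ⟨n, y, hy, rfl⟩ := mem_iUnion.1 hm
          exact Or.inl (mem_iUnion.2 ⟨n, y, ⟨hx, fun hyT => mem_iInter.1 hyT 0 hy⟩, rfl⟩)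
        · exact Or.inr hm
      filter_upwards [nul_iff.1 (nul_iUnion fun n => pre_iter n2 n t6)] with z hz
      refine frequently_atTop.2 fun n => ?_
      by_contra hc
      refine hz (mem_iUnion.2 ⟨n, mem_iInter.2 fun m hm => hc ⟨m + n, Nat.le_add_left _ _, ?_⟩⟩)
      rwa [Function.iterate_add_apply]
    have h2 : ∀ᵐ z, ∀ U ∈ TopologicalSpace.countableBasis X,
        ∃ᶠ n in atTop, f^[n] (e z) ∈ U :=
      (ae_ball_iff (TopologicalSpace.countable_countableBasis X)).2 fun U hU =>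
        key U (TopologicalSpace.isOpen_of_mem_countableBasis hU)
          (TopologicalSpace.nonempty_of_mem_countableBasis hU)
    filter_upwards [h2] with z hz
    refine eq_univ_of_forall fun a => mem_om.2 fun V hV => ?_
    obtain ⟨U, hU, -, hUV⟩ := (TopologicalSpace.isBasis_countableBasis X).mem_nhds_iff.1 hV
    exact (hz U hU).mono fun n hn => hUV hn

end Pool.Agent.MP_255345_an

end

section

open Set Filter Topology Metric Polynomial

namespace Pool.Agent.MP_255345_an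

namespace Mon

theorem unif {X : Type} [TopologicalSpace X] {ψ : ℂ → X} (hψ : Continuous ψ) {W : Set (X × X)}
    (hW : IsOpen W) (hd : ∀ p, (p, p) ∈ W) :
    ∃ ε : ℝ, 0 < ε ∧ ∀ s t : ℂ, ‖s‖ ≤ 1 → dist t s < ε → (ψ s, ψ t) ∈ W := by
  have c : IsCompact ((fun s : ℂ => (s, s)) '' closedBall 0 1) :=
    (isCompact_closedBall 0 1).image (continuous_id.prodMk continuous_id)
  obtain ⟨ε, e0, h⟩ := c.exists_thickening_subset_open (hW.preimage (hψ.prodMap hψ))
    (by rintro _ ⟨s, -, rfl⟩; exact hd _)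
  refine ⟨ε, e0, fun s t hs ht => h (a := (s, t)) ?_⟩
  refine mem_thickening_iff.2 ⟨(s, s), ⟨s, by simpa using hs, rfl⟩, ?_⟩
  simpa [Prod.dist_eq, e0] using ht

theorem cont {X : Type} [Sp X] {f : X → X} {e : ℂ → X} {k : X} {P Q : ℂ[X]} (h : Ch f e k P Q)
    {a b : ℂ} (hab : a ≠ b) :
    Continuous (Function.update (fun s : ℂ => e (a + (b - a) * s⁻¹)) 0 k) := by
  refine continuous_iff_continuousAt.2 fun s => ?_
  by_cases hs : s = 0
  · subst hs
    rw [continuousAt_update_same]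
    have h1 : Tendsto e (Bornology.cobounded ℂ) (𝓝 k) := by
      rw [Metric.cobounded_eq_cocompact]
      refine (nhds_basis_opens k).tendsto_right_iff.2 fun N hN => ?_
      refine mem_cocompact.2 ⟨e ⁻¹' Nᶜ, h.emb.isInducing.isCompact_preimage'
        hN.2.isClosed_compl.isCompact ?_, fun z hz => not_not.1 hz⟩
      rw [h.rng]
      exact compl_subset_compl.2 (singleton_subset_iff.2 hN.1)
    exact h1.comp ((tendsto_const_add_cobounded a).comp
      ((tendsto_mul_left_cobounded (sub_ne_zero.2 hab.symm)).comp tendsto_inv₀_nhdsNE_zero))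
  · rw [continuousAt_update_of_ne hs]
    exact h.emb.continuous.continuousAt.comp
      (continuousAt_const.add (continuousAt_const.mul (continuousAt_inv₀ hs)))

theorem lip (hS : StSch) (c : ℂ) {R : ℝ} (hR : 0 < R) : ∃ L : ℝ, ∀ h : ℂ → ℂ,
    DifferentiableOn ℂ h (ball c R) → (∀ z ∈ ball c R, h z ≠ 0 ∧ h z ≠ 1) → ‖h c‖ ≤ 1 →
    ∀ u ∈ ball c (R / 2), dist (h u) (h c) ≤ L * dist u c := by
  obtain ⟨B, hB⟩ := hS
  refine ⟨(B + 1) / (R / 2), fun h h1 h2 h3 u hu => ?_⟩
  refine Complex.dist_le_div_mul_dist_of_mapsTo_ball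
    (h1.mono (ball_subset_ball (by linarith))) (fun v hv => ?_) hu
  have := hB h c R hR h1 h2 h3 v hv
  rw [mem_closedBall, dist_eq_norm]
  exact (norm_sub_le _ _).trans (add_le_add this h3)

end Mon

theorem stMon (hS : StSch) : StMon := by
  classical
  intro X _ f e k P Q h D a b hD ⟨z, hz⟩ hab hn
  refine ⟨z, D, hD.mem_nhds hz, fun w hw W hW hd => ?_⟩
  obtain ⟨c, rfl⟩ := h.ex (hn 0 w hw).1
  obtain ⟨R, R0, hR⟩ := Metric.isOpen_iff.1 (hD.preimage h.emb.continuous) c hw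
  obtain ⟨L, hL⟩ := Mon.lip hS c R0
  have c1 : Continuous fun s : ℂ => e (a + (b - a) * s) := h.emb.continuous.comp (by fun_prop)
  obtain ⟨ε, e0, h1⟩ := Mon.unif c1 hW hd
  obtain ⟨ε', e0', h2⟩ := Mon.unif (Mon.cont h hab) hW hd
  have ba : b - a ≠ 0 := sub_ne_zero.2 hab.symm
  have o : IsOpen {u : ℂ | L * dist u c < min ε ε'} := isOpen_lt (by fun_prop) continuous_const
  refine ⟨e '' (ball c (R / 2) ∩ {u | L * dist u c < min ε ε'}),
    h.emb.isOpenMap.image_mem_nhds (inter_mem (ball_mem_nhds _ (by linarith))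
      (o.mem_nhds (by simp [e0, e0']))), ?_⟩
  rintro n _ ⟨u, ⟨u1, u2⟩, rfl⟩
  set g := (fun z => P.eval z / Q.eval z)^[n] with hg
  have it : ∀ v ∈ ball c R, f^[n] (e v) = e (g v) ∧ AnalyticAt ℂ g v := fun v hv =>
    h.iter fun i _ => (hn i _ (hR hv)).1
  have om : ∀ v ∈ ball c R, (g v - a) / (b - a) ≠ 0 ∧ (g v - a) / (b - a) ≠ 1 := fun v hv => by
    obtain ⟨-, x, y⟩ := hn n _ (hR hv)
    rw [(it v hv).1] at x y
    refine ⟨div_ne_zero (sub_ne_zero.2 fun e => x (by rw [e])) ba, fun e => y ?_⟩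
    rw [sub_left_injective (div_eq_one_iff_eq ba |>.1 e)]
  have df : DifferentiableOn ℂ (fun v => (g v - a) / (b - a)) (ball c R) := fun v hv =>
    (((it v hv).2.differentiableAt.sub_const a).div_const _).differentiableWithinAt
  have id : ∀ v, a + (b - a) * ((g v - a) / (b - a)) = g v := fun v => by field_simp; ring
  have mc := mem_ball_self (x := c) R0
  have mu : u ∈ ball c R := ball_subset_ball (by linarith) u1
  rw [(it c mc).1, (it u mu).1]
  rcases le_total ‖(g c - a) / (b - a)‖ 1 with l | l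
  · have := h1 _ _ l ((hL _ df om l u u1).trans_lt (u2.trans_le (min_le_left _ _)))
    rwa [id, id] at this
  · have l' : ‖((g c - a) / (b - a))⁻¹‖ ≤ 1 := by
      rw [norm_inv]
      exact inv_le_one_of_one_le₀ l
    have := h2 _ _ l' ((hL _ (df.inv fun v hv => (om v hv).1)
      (fun v hv => ⟨inv_ne_zero (om v hv).1, inv_ne_one.2 (om v hv).2⟩) l' u u1).trans_lt
      (u2.trans_le (min_le_right _ _)))
    simp only [Pi.inv_apply] at this
    rwa [Function.update_of_ne (inv_ne_zero (om c mc).1),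
      Function.update_of_ne (inv_ne_zero (om u mu).1), inv_inv, inv_inv, id, id] at this

end Pool.Agent.MP_255345_an

end

section

/-! A rational map of the sphere with finite fibres is open. -/

open Set Filter Topology MeasureTheory Metric Polynomial

namespace Pool.Agent.MP_255345_an

theorem stOpen (hE : StEmb) : StOpen := by
  intro f hc hfin hrat
  rw [isOpenMap_iff_nhds_le]
  intro x
  obtain ⟨k, hk⟩ : ∃ k : ℂ, (k : OnePoint ℂ) ∉ ({x, f x} : Set (OnePoint ℂ)) :=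
    ((Set.toFinite {x, f x}).preimage OnePoint.coe_injective.injOn).exists_notMem
  obtain ⟨he, hr, -, -⟩ := hE k
  obtain ⟨P, Q, h⟩ := hrat k
  obtain ⟨u, rfl⟩ : x ∈ range (ek k) := by
    rw [hr]
    exact fun e => hk (Or.inl e.symm)
  have hfx : f (ek k u) ≠ k := fun e => hk (Or.inr e.symm)
  have hev : ∀ᶠ z in 𝓝 u, f (ek k z) ≠ k :=
    (hc.comp he.continuous).continuousAt.eventually_ne hfx
  have heq : f ∘ ek k =ᶠ[𝓝 u] ek k ∘ fun z => P.eval z / Q.eval z :=
    hev.mono fun z hz => (h z hz).2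
  have ha : AnalyticAt ℂ (fun z => P.eval z / Q.eval z) u :=
    (P.differentiable.analyticAt _).div (Q.differentiable.analyticAt _) (h u hfx).1
  rcases ha.eventually_constant_or_nhds_le_map_nhds with h1 | h1
  · have h2 : ek k ⁻¹' (f ⁻¹' {f (ek k u)}) ∈ 𝓝 u := by
      filter_upwards [hev, h1] with z hz hz1
      show f (ek k z) = f (ek k u)
      rw [(h z hz).2, (h u hfx).2, hz1]
    exact (infinite_of_mem_nhds u h2 ((hfin _).preimage he.injective.injOn)).elim
  · rw [← he.map_nhds_eq, Filter.map_map, Filter.map_congr heq, ← Filter.map_map, (h u hfx).2,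
      ← he.map_nhds_eq]
    exact Filter.map_mono h1

end Pool.Agent.MP_255345_an

end

section

/-! The map is rational in the charts `ek k`. -/

open Set Filter Topology MeasureTheory Metric Polynomial

namespace Pool.Agent.MP_255345_an

namespace Rat

/-- Homogenisation at the point `k`. -/
theorem exists_rev (P : ℂ[X]) (k : ℂ) (d : ℕ) (hd : P.natDegree ≤ d) :
    ∃ R : ℂ[X], ∀ u : ℂ, u ≠ 0 → R.eval u = u ^ d * P.eval (k + u⁻¹) := by
  refine ⟨∑ i ∈ Finset.range (d + 1), C (P.coeff i) * (C k * X + 1) ^ i * X ^ (d - i),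
    fun u hu => ?_⟩
  rw [eval_eq_sum_range' (Nat.lt_succ_of_le hd), eval_finsetSum, Finset.mul_sum]
  refine Finset.sum_congr rfl fun i hi => ?_
  have hi' : i ≤ d := Nat.lt_succ_iff.1 (Finset.mem_range.1 hi)
  obtain ⟨j, rfl⟩ := Nat.exists_eq_add_of_le hi'
  have h1 : k * u + 1 = u * (k + u⁻¹) := by field_simp
  simp only [eval_mul, eval_C, eval_pow, eval_add, eval_X, eval_one, Nat.add_sub_cancel_left, h1,
    mul_pow, pow_add]
  ring

theorem ev_notMem {S : Set ℂ} (hS : S.Finite) (z : ℂ) : ∀ᶠ u in 𝓝[≠] z, u ∉ S := by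
  have h1 : IsClosed (S \ {z}) := (hS.subset sdiff_subset).isClosed
  have h2 : (S \ {z})ᶜ ∈ 𝓝 z := h1.isOpen_compl.mem_nhds (by simp)
  filter_upwards [self_mem_nhdsWithin, mem_nhdsWithin_of_mem_nhds h2] with u hu hu2 hu3
  exact hu2 ⟨hu3, hu⟩

end Rat

theorem stRat (hE : StEmb) : StRat := by
  intro f P Q hf hQ hPQ hfin k
  obtain ⟨hemb, hrng, -⟩ := hE k
  obtain ⟨P1, hP1⟩ := Rat.exists_rev P k _ (le_max_left P.natDegree Q.natDegree)
  obtain ⟨Q1, hQ1⟩ := Rat.exists_rev Q k _ (le_max_right P.natDegree Q.natDegree)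
  set d := max P.natDegree Q.natDegree
  -- the exceptional set
  have hS1 : {u : ℂ | Q.eval (k + u⁻¹) = 0}.Finite := by
    have h1 : {w : ℂ | Q.IsRoot w}.Finite := Q.finite_setOfPred_isRoot hQ
    have h2 : Function.Injective fun u : ℂ => k + u⁻¹ := fun a b h =>
      inv_injective (add_left_cancel h)
    exact h1.preimage h2.injOn
  have hS2 : {u : ℂ | f (ek k u) = k}.Finite := (hfin k).preimage hemb.injective.injOn
  set Nn := P1 - C k * Q1 with hNn
  have key : ∀ u : ℂ, u ≠ 0 → Q.eval (k + u⁻¹) ≠ 0 → f (ek k u) ≠ k →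
      Nn.eval u ≠ 0 ∧ f (ek k u) = ek k (Q1.eval u / Nn.eval u) := by
    intro u h0 h1 h2
    have e1 : ek k u = ((k + u⁻¹ : ℂ) : OnePoint ℂ) := if_neg h0
    have e2 := hPQ _ h1
    rw [e1, e2] at h2
    rw [e1, e2]
    have h3 : P.eval (k + u⁻¹) / Q.eval (k + u⁻¹) ≠ k := fun h => h2 (by rw [h])
    have h4 : P.eval (k + u⁻¹) - k * Q.eval (k + u⁻¹) ≠ 0 := by
      intro h
      apply h3
      rw [div_eq_iff h1]
      exact sub_eq_zero.1 h
    have hud : u ^ d ≠ 0 := pow_ne_zero _ h0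
    have e3 : Nn.eval u = u ^ d * (P.eval (k + u⁻¹) - k * Q.eval (k + u⁻¹)) := by
      rw [hNn, eval_sub, eval_mul, eval_C, hP1 u h0, hQ1 u h0]
      ring
    have h5 : Nn.eval u ≠ 0 := by
      rw [e3]
      exact mul_ne_zero hud h4
    have h6 : Q1.eval u ≠ 0 := by
      rw [hQ1 u h0]
      exact mul_ne_zero hud h1
    refine ⟨h5, ?_⟩
    rw [ek, if_neg (div_ne_zero h6 h5), e3, hQ1 u h0]
    congr 1
    generalize P.eval (k + u⁻¹) = a at *
    generalize Q.eval (k + u⁻¹) = b at *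
    field_simp
    ring
  have hS : ({0} ∪ {u : ℂ | Q.eval (k + u⁻¹) = 0} ∪ {u : ℂ | f (ek k u) = k}).Finite :=
    ((finite_singleton _).union hS1).union hS2
  have key' : ∀ z : ℂ, ∀ᶠ u in 𝓝[≠] z,
      Nn.eval u ≠ 0 ∧ f (ek k u) = ek k (Q1.eval u / Nn.eval u) := fun z =>
    (Rat.ev_notMem hS z).mono fun u hu =>
      key u (fun h => hu (Or.inl (Or.inl h))) (fun h => hu (Or.inl (Or.inr h)))
        (fun h => hu (Or.inr h))
  have hN0 : Nn ≠ 0 := by
    obtain ⟨u, hu, -⟩ := (key' 0).exists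
    intro h
    exact hu (by rw [h, eval_zero])
  classical
  have hcop := isCoprime_div_gcd_div_gcd (p := Q1) (q := Nn) hN0
  set g := gcd Q1 Nn with hg
  have hg0 : g ≠ 0 := gcd_ne_zero_of_right hN0
  have e1 : g * (Q1 / g) = Q1 := EuclideanDomain.mul_div_cancel' hg0 (gcd_dvd_left _ _)
  have e2 : g * (Nn / g) = Nn := EuclideanDomain.mul_div_cancel' hg0 (gcd_dvd_right _ _)
  refine ⟨Q1 / g, Nn / g, fun z hz => ?_⟩
  generalize Q1 / g = A at *
  generalize Nn / g = B at *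
  have key2 : ∀ᶠ u in 𝓝[≠] z, B.eval u ≠ 0 ∧ f (ek k u) = ek k (A.eval u / B.eval u) := by
    filter_upwards [key' z] with u hu
    rw [← e1, ← e2, eval_mul, eval_mul] at hu
    obtain ⟨h1, h2⟩ := mul_ne_zero_iff.1 hu.1
    exact ⟨h2, by rw [hu.2, mul_div_mul_left _ _ h1]⟩
  obtain ⟨w, hw⟩ : f (ek k z) ∈ range (ek k) := by
    rw [hrng]
    exact hz
  have t1 : Tendsto (fun u => A.eval u / B.eval u) (𝓝[≠] z) (𝓝 w) := by
    rw [hemb.isInducing.tendsto_nhds_iff, hw]
    refine Tendsto.congr' (key2.mono fun u hu => hu.2) ?_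
    exact ((hf.comp hemb.continuous).tendsto z).mono_left nhdsWithin_le_nhds
  have tA : Tendsto (fun u => A.eval u) (𝓝[≠] z) (𝓝 (A.eval z)) :=
    (A.continuous.tendsto z).mono_left nhdsWithin_le_nhds
  have tB : Tendsto (fun u => B.eval u) (𝓝[≠] z) (𝓝 (B.eval z)) :=
    (B.continuous.tendsto z).mono_left nhdsWithin_le_nhds
  have e3 : A.eval z = w * B.eval z := by
    refine tendsto_nhds_unique tA (Tendsto.congr' (key2.mono fun u hu => ?_) (t1.mul tB))
    exact div_mul_cancel₀ _ hu.1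
  have hB : B.eval z ≠ 0 := by
    intro h
    obtain ⟨a, b, hab⟩ := hcop
    have := congrArg (eval z) hab
    rw [eval_add, eval_mul, eval_mul, e3, h, eval_one] at this
    simp at this
  exact ⟨hB, by rw [e3, mul_div_cancel_right₀ _ hB, hw]⟩

end Pool.Agent.MP_255345_an

end
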